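import Pool.Agent.L7h6.BC.Law

set_option autoImplicit false

/-! Three random coefficients. -/

namespace Pool.Agent.L7h6.BC

open Finset
open Pool.Agent.Y883.T3 (ev_log_rpow)
open Pool.Agent.Y883.T5 (Admissible)
open Pool.Agent.Y883.T6

lemma decay {σ L x R : ℝ} {A B K : ℕ} (hσ : 0 < σ) (hL : 0 < L) (h1 : 1 ≤ σ * L) (hK : (A : ℝ) + B + 2 ≤ K * x)
    (hR : 0 ≤ R) (hRL : R * (1 / σ) ^ (A + B + 2) ≤ L) : R * L ^ B * ((σ * L) ^ K) ^ (-x) ≤ 1 / L ^ (A + 1) := by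
  have h6 : ((σ * L) ^ K) ^ (-x) ≤ (σ * L) ^ (-((A + B + 2 : ℕ) : ℝ)) := by
    rw [← Real.rpow_natCast, ← Real.rpow_mul (by positivity)]
    apply Real.rpow_le_rpow_of_exponent_le h1
    push_cast
    linarith
  rw [Real.rpow_neg (show (0 : ℝ) ≤ σ * L by positivity), Real.rpow_natCast] at h6
  have h7 : ((σ * L) ^ (A + B + 2))⁻¹ = (1 / σ) ^ (A + B + 2) / L ^ (A + B + 2) := by
    rw [mul_pow, mul_inv, ← inv_pow, one_div]
    rfl
  calc R * L ^ B * ((σ * L) ^ K) ^ (-x) ≤ R * L ^ B * ((1 / σ) ^ (A + B + 2) / L ^ (A + B + 2)) := by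
        rw [← h7]
        exact mul_le_mul_of_nonneg_left h6 (by positivity)
    _ = (R * (1 / σ) ^ (A + B + 2)) * (1 / L ^ (A + 2)) := by
        have : L ^ (A + B + 2) = L ^ B * L ^ (A + 2) := by ring
        rw [this]
        field_simp
    _ ≤ L * (1 / L ^ (A + 2)) := mul_le_mul_of_nonneg_right hRL (by positivity)
    _ = 1 / L ^ (A + 1) := by
        rw [pow_succ L (A + 1)]
        field_simp

/-- the bad event for a pair of coefficients -/
def PairBad (D F : Set ℕ) (G : ℝ) (u v : ℕ) : Prop :=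
  G < (Nat.gcd u v : ℕ) ∨ (∃ e ∈ D, G < (e : ℝ) ∧ e ∣ u * v) ∨ u * v ∈ F

open Classical in
theorem three_law (g γ C ε : ℝ) (hg : 0 < g) (hγ : 1 / 2 < γ) (hε : 0 < ε) (B A : ℕ) :
    ∃ X₀ : ℕ, ∀ X : ℕ, X₀ ≤ X → ∀ (ι : Type) (s : Finset ι) (w : ι → ℝ) (a b c : ι → ℕ),
      SpreadPair g γ C B X s w a b → SpreadPair g γ C B X s w b c → SpreadPair g γ C B X s w c a →
      ∑ i ∈ s with ¬ Three (max 2 (min (4 - g) 3) + ε) (a i) (b i) (c i), w i ≤ 1 / Real.log X ^ A := by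
  obtain ⟨D, -, hD, hmain⟩ := main6
  obtain ⟨K, hK⟩ := exists_nat_ge (((A : ℝ) + B + 2) / (γ - 1 / 2) + ((A : ℝ) + B + 2) / (γ / 4))
  have hK1 : (A : ℝ) + B + 2 ≤ K * (γ - 1 / 2) := by
    have h0 : 0 < γ - 1 / 2 := by linarith
    have h1 : 0 ≤ ((A : ℝ) + B + 2) / (γ / 4) := by positivity
    rw [← div_le_iff₀ h0]
    linarith
  have hK2 : (A : ℝ) + B + 2 ≤ K * (γ / 4) := by
    have h0 : 0 < γ / 4 := by linarith
    have h00 : 0 < γ - 1 / 2 := by linarith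
    have h1 : 0 ≤ ((A : ℝ) + B + 2) / (γ - 1 / 2) := by positivity
    rw [← div_le_iff₀ h0]
    linarith
  obtain ⟨θ, hθ⟩ : ∃ θ : ℝ, θ = max 1 (min (2 - g / 2) (3 / 2)) + ε / 2 := ⟨_, rfl⟩
  have hμ : max 2 (min (4 - g) 3) + ε = 2 * θ := by
    rw [hθ]
    rcases le_total (4 - g) 3 with h3 | h3
    · rw [min_eq_left h3, min_eq_left (by linarith : 2 - g / 2 ≤ 3 / 2)]
      rcases le_total 2 (4 - g) with h4 | h4
      · rw [max_eq_right h4, max_eq_right (by linarith : (1 : ℝ) ≤ 2 - g / 2)]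
        ring
      · rw [max_eq_left h4, max_eq_left (by linarith : 2 - g / 2 ≤ (1 : ℝ))]
        ring
    · rw [min_eq_right h3, min_eq_right (by linarith : (3 : ℝ) / 2 ≤ 2 - g / 2), max_eq_right (by norm_num),
        max_eq_right (by norm_num)]
      ring
  rw [hμ]
  have hθ1 : 1 + ε / 2 ≤ θ := by
    rw [hθ]
    linarith [le_max_left 1 (min (2 - g / 2) (3 / 2))]
  have hθ2 : min (2 - g / 2) (3 / 2) + ε / 2 ≤ θ := by
    rw [hθ]
    linarith [le_max_right 1 (min (2 - g / 2) (3 / 2))]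
  obtain ⟨Δ₀, F, hF1, hF2, hF3⟩ := hmain θ (by linarith) (ε / 8) (by positivity) K
  obtain ⟨B₁, hB1, hpair⟩ := pair_law hD γ (by linarith)
  obtain ⟨B₂, hB2, hgcd⟩ := gcd_law γ hγ
  obtain ⟨B₃, hB3, hmem⟩ := mem_law (ε / 8) (by positivity)
  obtain ⟨N₁, h1⟩ := ev_log_rpow (A + 1) 1 (g / 2) (by positivity)
  obtain ⟨N₂, h2⟩ := ev_log_rpow (A + 1) B₃ (5 * ε / 8) (by positivity)
  obtain ⟨N₃, hN3, h3⟩ := log_ge (1 / (g / 4) + B₁ * (|C| + 1) * (1 / (g / 4)) ^ (A + B + 2) +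
    B₂ * (|C| + 1) * (1 / (g / 4)) ^ (A + B + 2) + 10)
  obtain ⟨N₄, h4⟩ := exists_nat_ge ((Δ₀ : ℝ) ^ (4 / g))
  refine ⟨Δ₀ + N₁ + N₂ + N₃ + N₄ + 1, fun X hX ι s w a b c hab hbc hca => ?_⟩
  have hX1 : 1 ≤ X := by omega
  have hX0 : (0 : ℝ) < X := by exact_mod_cast hX1
  have hX1r : (1 : ℝ) ≤ X := by exact_mod_cast hX1
  obtain ⟨L, hL⟩ : ∃ L, L = Real.log X := ⟨_, rfl⟩
  have hLb := h3 X (by omega)
  rw [← hL] at hLb ⊢
  have p1 : (0 : ℝ) < B₁ * (|C| + 1) * (1 / (g / 4)) ^ (A + B + 2) := by positivity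
  have p2 : (0 : ℝ) < B₂ * (|C| + 1) * (1 / (g / 4)) ^ (A + B + 2) := by positivity
  have p3 : (0 : ℝ) < 1 / (g / 4) := by positivity
  have hL10 : 10 ≤ L := by linarith
  have hL0 : 0 < L := by linarith
  have hLA : 0 < L ^ (A + 1) := by positivity
  obtain ⟨Z, hZ⟩ : ∃ Z : ℝ, Z = 1 / L ^ (A + 1) := ⟨_, rfl⟩
  have hZ0 : 0 ≤ Z := by rw [hZ]; positivity
  obtain ⟨G, hG⟩ : ∃ G : ℝ, G = (g / 4 * L) ^ K := ⟨_, rfl⟩
  have hgL : 1 ≤ g / 4 * L := by
    have : 1 / (g / 4) ≤ L := by linarith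
    rw [div_le_iff₀ (by positivity)] at this
    linarith
  have hG0 : 0 < G := by rw [hG]; positivity
  obtain ⟨Q, hQ⟩ : ∃ Q : ℕ, Q = ⌊(X : ℝ) ^ (g / 4)⌋₊ := ⟨_, rfl⟩
  have hQr : (Q : ℝ) ≤ (X : ℝ) ^ (g / 4) := by rw [hQ]; exact Nat.floor_le (by positivity)
  -- the sizes
  have b0 : ∑ i ∈ s with (a i ≤ Q ∧ b i ≤ Q), w i ≤ Z := by
    refine (union_bound s w hab.nonneg (Icc 1 Q ×ˢ Icc 1 Q) _ (fun t i => a i = t.1 ∧ b i = t.2) ?_).trans ?_
    · intro i hi hc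
      obtain ⟨⟨u1, u2⟩, v1, v2⟩ := hab.range i hi
      exact ⟨(a i, b i), mem_product.2 ⟨mem_Icc.2 ⟨u1, hc.1⟩, mem_Icc.2 ⟨v1, hc.2⟩⟩, rfl, rfl⟩
    · refine (sum_le_sum fun t _ => hab.point t.1 t.2).trans ?_
      rw [sum_const, card_product, Nat.card_Icc, Nat.add_sub_cancel, nsmul_eq_mul, hZ, le_div_iff₀ hLA]
      have h5 := h1 X (by omega)
      rw [one_mul, ← hL] at h5
      push_cast
      calc (Q : ℝ) * Q * (X : ℝ) ^ (-g) * L ^ (A + 1) ≤
            (X : ℝ) ^ (g / 4) * (X : ℝ) ^ (g / 4) * (X : ℝ) ^ (-g) * (X : ℝ) ^ (g / 2) := by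
            gcongr
        _ = (X : ℝ) ^ (g / 4 + g / 4 + -g + g / 2) := by
            rw [← Real.rpow_add hX0, ← Real.rpow_add hX0, ← Real.rpow_add hX0]
        _ = 1 := by
            have : g / 4 + g / 4 + -g + g / 2 = 0 := by ring
            rw [this, Real.rpow_zero]
        _ ≤ 1 := le_rfl
  -- the pairs
  have bp : ∀ u v : ι → ℕ, SpreadPair g γ C B X s w u v → ∑ i ∈ s with PairBad D F G (u i) (v i), w i ≤ Z + (Z + Z) := by
    intro u v huv
    have b1 : ∑ i ∈ s with G < (Nat.gcd (u i) (v i) : ℕ), w i ≤ Z := by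
      refine (hgcd ι g C B X s w u v hX1 huv G hG0).trans ?_
      rw [← hL, hG, hZ]
      exact decay (by positivity) hL0 hgL hK1 (by positivity) (by linarith)
    have b2 : ∑ i ∈ s with (∃ e ∈ D, G < (e : ℝ) ∧ e ∣ u i * v i), w i ≤ Z := by
      refine (hpair ι g C B X s w u v hX1 huv G hG0).trans ?_
      rw [← hL, hG, hZ]
      exact decay (by positivity) hL0 hgL hK2 (by positivity) (by linarith)
    have b3 : ∑ i ∈ s with u i * v i ∈ F, w i ≤ Z := by
      refine (hmem ι g γ C B X s w u v F hX1 huv).trans ?_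
      rcases le_or_gt θ (3 / 2) with h5 | h5
      · have h6 : 2 - g / 2 + ε / 2 ≤ θ := by
          rcases le_total (2 - g / 2) (3 / 2) with h7 | h7
          · rw [min_eq_left h7] at hθ2
            exact hθ2
          · rw [min_eq_right h7] at hθ2
            linarith
        rw [hZ, le_div_iff₀ hLA]
        have h7 := h2 X (by omega)
        rw [← hL] at h7
        have h8 : ((X * X : ℕ) : ℝ) ^ (2 - θ + ε / 8) = (X : ℝ) ^ (2 * (2 - θ + ε / 8)) := by
          rw [Real.rpow_mul hX0.le, Real.rpow_two, sq]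
          push_cast
          rfl
        have h9 : (((Icc 1 (X * X)).filter (fun q => q ∈ F)).card : ℝ) ≤ (X : ℝ) ^ (2 * (2 - θ + ε / 8)) := by
          rw [← h8]
          exact hF1 (X * X) (by
            have : X ≤ X * X := Nat.le_mul_of_pos_left X (by omega)
            omega)
        calc _ ≤ B₃ * (X : ℝ) ^ (ε / 8) * (X : ℝ) ^ (2 * (2 - θ + ε / 8)) * (X : ℝ) ^ (-g) * L ^ (A + 1) := by
              gcongr
          _ = (X : ℝ) ^ (ε / 8) * (X : ℝ) ^ (2 * (2 - θ + ε / 8)) * (X : ℝ) ^ (-g) * (B₃ * L ^ (A + 1)) := by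
              ring
          _ ≤ (X : ℝ) ^ (ε / 8) * (X : ℝ) ^ (2 * (2 - θ + ε / 8)) * (X : ℝ) ^ (-g) * (X : ℝ) ^ (5 * ε / 8) := by
              gcongr
          _ = (X : ℝ) ^ (ε / 8 + 2 * (2 - θ + ε / 8) + -g + 5 * ε / 8) := by
              rw [← Real.rpow_add hX0, ← Real.rpow_add hX0, ← Real.rpow_add hX0]
          _ ≤ (X : ℝ) ^ (0 : ℝ) := Real.rpow_le_rpow_of_exponent_le hX1r (by linarith)
          _ = 1 := Real.rpow_zero _
      · have h6 : (Icc 1 (X * X)).filter (fun n => n ∈ F) = ∅ := by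
          rw [filter_eq_empty_iff]
          intro x _ hx
          rw [hF2 h5] at hx
          exact hx
        rw [h6, card_empty, Nat.cast_zero, mul_zero, zero_mul]
        exact hZ0
    exact (or_bound s w huv.nonneg (fun i => PairBad D F G (u i) (v i)) (fun i => G < (Nat.gcd (u i) (v i) : ℕ))
      (fun i => (∃ e ∈ D, G < (e : ℝ) ∧ e ∣ u i * v i) ∨ u i * v i ∈ F) (fun i _ h => h)).trans (add_le_add b1
      ((or_bound s w huv.nonneg _ _ _ (fun i _ h => h)).trans (add_le_add b2 b3)))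
  have hbad : ∑ i ∈ s with ¬ Three (2 * θ) (a i) (b i) (c i), w i ≤
      Z + ((Z + (Z + Z)) + ((Z + (Z + Z)) + (Z + (Z + Z)))) := by
    refine (or_bound s w hab.nonneg _ (fun i => a i ≤ Q ∧ b i ≤ Q)
      (fun i => PairBad D F G (a i) (b i) ∨ PairBad D F G (b i) (c i) ∨ PairBad D F G (c i) (a i)) ?_).trans
        (add_le_add b0 ((or_bound s w hab.nonneg _ _ _ (fun i _ h => h)).trans (add_le_add (bp a b hab)
          ((or_bound s w hab.nonneg _ _ _ (fun i _ h => h)).trans (add_le_add (bp b c hbc) (bp c a hca))))))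
    intro i hi hn
    by_contra hcon
    push Not at hcon
    obtain ⟨g0, g1, g2, g3⟩ := hcon
    obtain ⟨⟨a1, a2⟩, b1, b2⟩ := hab.range i hi
    apply hn
    intro x y z d hadm hx hy hz
    obtain ⟨Δ, hΔ⟩ : ∃ Δ, Δ = max (x * y).natAbs (max (y * z).natAbs (z * x).natAbs) := ⟨_, rfl⟩
    have hΔQ : (X : ℝ) ^ (g / 4) ≤ Δ := by
      have h5 : Q < Δ := by
        have e1 : (x * y).natAbs = a i * b i := by rw [Int.natAbs_mul, hx, hy]
        have e2 : a i * b i ≤ Δ := by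
          rw [hΔ, e1]
          exact le_max_left _ _
        rcases le_or_gt (a i) Q with h6 | h6
        · have h7 := g0 h6
          calc Q < b i := h7
            _ ≤ a i * b i := Nat.le_mul_of_pos_left _ a1
            _ ≤ Δ := e2
        · calc Q < a i := h6
            _ ≤ a i * b i := Nat.le_mul_of_pos_right _ b1
            _ ≤ Δ := e2
      have := Nat.lt_of_floor_lt (a := (X : ℝ) ^ (g / 4)) (n := Δ) (by rw [← hQ]; exact h5)
      exact this.le
    have hlog : g / 4 * L ≤ Real.log Δ := by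
      have h5 := Real.log_le_log (by positivity) hΔQ
      rw [Real.log_rpow hX0, ← hL] at h5
      exact h5
    have hGΔ : G ≤ Real.log Δ ^ K := by
      rw [hG]
      exact pow_le_pow_left₀ (by positivity) hlog _
    have hΔ0 : Δ₀ ≤ Δ := by
      have h5 : (Δ₀ : ℝ) ≤ (X : ℝ) ^ (g / 4) := by
        have h6 : (Δ₀ : ℝ) ^ (4 / g) ≤ X := h4.trans (by exact_mod_cast (by omega : N₄ ≤ X))
        calc (Δ₀ : ℝ) = ((Δ₀ : ℝ) ^ (4 / g)) ^ (g / 4) := by
              rw [← Real.rpow_mul (Nat.cast_nonneg _)]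
              have : 4 / g * (g / 4) = 1 := by field_simp
              rw [this, Real.rpow_one]
          _ ≤ (X : ℝ) ^ (g / 4) := Real.rpow_le_rpow (by positivity) h6 (by positivity)
      exact_mod_cast h5.trans hΔQ
    have hgood : ∀ (m n : ℤ) (u v : ℕ), m.natAbs = u → n.natAbs = v → ¬ PairBad D F G u v →
        GoodPair K D F Δ m n := by
      intro m n u v hm hn' hPB
      unfold PairBad at hPB
      push Not at hPB
      obtain ⟨q1, q2, q3⟩ := hPB
      refine ⟨?_, ?_, fun _ => ?_⟩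
      · have : Int.gcd m n = Nat.gcd u v := by rw [← hm, ← hn', Int.gcd_eq_natAbs]
        rw [this]
        exact q1.trans hGΔ
      · intro e he heL hdvd
        rw [Int.natCast_dvd, Int.natAbs_mul, hm, hn'] at hdvd
        exact q2 e he (lt_of_le_of_lt hGΔ heL) hdvd
      · rw [Int.natAbs_mul, hm, hn']
        exact q3
    have hsol := hF3 x y z d hadm Δ hΔ hΔ0 (hgood x y _ _ hx hy g1) (hgood y z _ _ hy hz g2)
      (hgood z x _ _ hz hx g3)
    apply hsol.bound hadm.a_ne hadm.b_ne hadm.c_ne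
    obtain ⟨m, hm⟩ : ∃ m : ℤ, m = max 3 (max |x| (max |y| |z|)) := ⟨_, rfl⟩
    rw [← hm]
    have hm0 : 0 ≤ m := by
      rw [hm]
      exact le_trans (by norm_num) (le_max_left _ _)
    have hmr : (0 : ℝ) ≤ (m : ℝ) := by exact_mod_cast hm0
    have hxm : |x| ≤ m := by
      rw [hm]
      exact (le_max_left _ _).trans (le_max_right _ _)
    have hym : |y| ≤ m := by
      rw [hm]
      exact ((le_max_left _ _).trans (le_max_right _ _)).trans (le_max_right _ _)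
    have hzm : |z| ≤ m := by
      rw [hm]
      exact ((le_max_right _ _).trans (le_max_right _ _)).trans (le_max_right _ _)
    have hprod : ∀ u v : ℤ, |u| ≤ m → |v| ≤ m → (((u * v).natAbs : ℕ) : ℝ) ≤ (m : ℝ) ^ (2 : ℝ) := by
      intro u v hu hv
      have e1 : (((u * v).natAbs : ℕ) : ℤ) ≤ m ^ 2 := by
        rw [Int.natCast_natAbs, abs_mul, sq]
        exact mul_le_mul hu hv (abs_nonneg _) hm0
      rw [Real.rpow_two]
      calc (((u * v).natAbs : ℕ) : ℝ) = ((((u * v).natAbs : ℕ) : ℤ) : ℝ) := (Int.cast_natCast _).symm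
        _ ≤ ((m ^ 2 : ℤ) : ℝ) := Int.cast_le.2 e1
        _ = (m : ℝ) ^ 2 := by push_cast; rfl
    have hΔm : (Δ : ℝ) ≤ (m : ℝ) ^ (2 : ℝ) := by
      rw [hΔ, Nat.cast_max, Nat.cast_max]
      exact max_le (hprod x y hxm hym) (max_le (hprod y z hym hzm) (hprod z x hzm hxm))
    calc (Δ : ℝ) ^ θ ≤ ((m : ℝ) ^ (2 : ℝ)) ^ θ := Real.rpow_le_rpow (Nat.cast_nonneg _) hΔm (by linarith)
      _ = (m : ℝ) ^ (2 * θ) := by rw [← Real.rpow_mul hmr]
  have hfin : 10 * Z ≤ 1 / L ^ A := by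
    have e1 : 1 / L ^ A = L * Z := by
      rw [hZ, pow_succ L A]
      field_simp
    rw [e1]
    exact mul_le_mul_of_nonneg_right hL10 hZ0
  linarith

end Pool.Agent.L7h6.BC
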