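import Mathlib

set_option autoImplicit false

/-! The number of the values of a polynomial which are divisible by `e`. -/

namespace Pool.Agent.L7h6.BC

open Finset Polynomial

lemma dvd_chain (H : ℤ) (hH : 0 ≤ H) (e : ℤ) : ∀ (d : ℕ) (f : ℤ[X]) (K : ℤ) (x : ℕ → ℤ), f.natDegree ≤ d →
    (∀ i ≤ d, ∀ j ≤ d, i ≠ j → x i ≠ x j ∧ |x i - x j| ≤ H) → (∀ i ≤ d, e ∣ K * f.eval (x i)) →
    ∃ P : ℤ, P ≠ 0 ∧ |P| ≤ H ^ (∑ i ∈ range (d + 1), i) ∧ e ∣ K * f.coeff d * P := by
  intro d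
  induction d with
  | zero =>
    intro f K x hf hx he
    refine ⟨1, one_ne_zero, ?_, ?_⟩
    · simp
    · have h1 := he 0 le_rfl
      have h2 : f = C (f.coeff 0) := eq_C_of_natDegree_le_zero hf
      rw [h2, eval_C] at h1
      rw [mul_one]
      exact h1
  | succ d ih =>
    intro f K x hf hx he
    obtain ⟨y, hy⟩ : ∃ y, y = x (d + 1) := ⟨_, rfl⟩
    obtain ⟨g, hg⟩ : ∃ g, g = (f - C (f.eval y)) /ₘ (X - C y) := ⟨_, rfl⟩
    have hroot : (f - C (f.eval y)).IsRoot y := by simp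
    have hmul : (X - C y) * g = f - C (f.eval y) := by
      rw [hg]
      exact mul_divByMonic_eq_iff_isRoot.2 hroot
    have hdeg : g.natDegree ≤ d := by
      rw [hg, natDegree_divByMonic _ (monic_X_sub_C y), natDegree_X_sub_C]
      have : (f - C (f.eval y)).natDegree ≤ f.natDegree := natDegree_sub_C.le
      omega
    have hcoeff : g.coeff d = f.coeff (d + 1) := by
      have h1 := coeff_divByMonic_X_sub_C_rec (f - C (f.eval y)) y d
      rw [← hg] at h1
      rw [h1, coeff_eq_zero_of_natDegree_lt (by omega : g.natDegree < d + 1), mul_zero, add_zero, coeff_sub,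
        coeff_C_of_ne_zero (by omega), sub_zero]
    have hev : ∀ i, f.eval (x i) - f.eval y = (x i - y) * g.eval (x i) := by
      intro i
      have h1 := congrArg (fun p => p.eval (x i)) hmul
      simp only [eval_mul, eval_sub, eval_X, eval_C] at h1
      exact h1.symm
    obtain ⟨Q, hQ⟩ : ∃ Q : ℤ, Q = ∏ i ∈ range (d + 1), (x i - y) := ⟨_, rfl⟩
    have hQ0 : Q ≠ 0 := by
      rw [hQ, prod_ne_zero_iff]
      intro i hi
      rw [mem_range] at hi
      rw [hy]
      exact sub_ne_zero.2 (hx i (by omega) (d + 1) le_rfl (by omega)).1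
    have hQH : |Q| ≤ H ^ (d + 1) := by
      rw [hQ, abs_prod]
      calc ∏ i ∈ range (d + 1), |x i - y| ≤ ∏ _i ∈ range (d + 1), H := by
            apply prod_le_prod (fun i _ => abs_nonneg _)
            intro i hi
            rw [mem_range] at hi
            rw [hy]
            exact (hx i (by omega) (d + 1) le_rfl (by omega)).2
        _ = H ^ (d + 1) := by rw [prod_const, card_range]
    obtain ⟨P', h1, h2, h3⟩ := ih g (K * Q) x hdeg (fun i hi j hj hij => hx i (by omega) j (by omega) hij) (by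
      intro i hi
      have e1 : e ∣ K * f.eval (x i) - K * f.eval y :=
        dvd_sub (he i (by omega)) (by rw [hy]; exact he (d + 1) le_rfl)
      have e2 : K * f.eval (x i) - K * f.eval y = K * g.eval (x i) * (x i - y) := by
        rw [← mul_sub, hev i]
        ring
      have e3 : x i - y ∣ Q := by
        rw [hQ]
        exact dvd_prod_of_mem _ (mem_range.2 (by omega))
      rw [e2] at e1
      have e4 : K * g.eval (x i) * (x i - y) ∣ K * g.eval (x i) * Q := mul_dvd_mul_left _ e3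
      have e5 : K * Q * g.eval (x i) = K * g.eval (x i) * Q := by ring
      rw [e5]
      exact e1.trans e4)
    refine ⟨Q * P', mul_ne_zero hQ0 h1, ?_, ?_⟩
    · rw [abs_mul, sum_range_succ, pow_add, mul_comm]
      exact mul_le_mul h2 hQH (abs_nonneg _) (pow_nonneg hH _)
    · rw [hcoeff] at h3
      have e6 : K * f.coeff (d + 1) * (Q * P') = K * Q * f.coeff (d + 1) * P' := by ring
      rw [e6]
      exact h3

/-- a short interval has few arguments with values divisible by `e` -/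
lemma block_card (f : ℤ[X]) (hf : f.leadingCoeff ≠ 0) (H : ℕ) (e : ℤ)
    (he : |f.leadingCoeff| * (H : ℤ) ^ (∑ i ∈ range (f.natDegree + 1), i) < e) (t : Finset ℕ)
    (ht : ∀ m ∈ t, ∀ n ∈ t, |(m : ℤ) - n| ≤ H) (hdvd : ∀ m ∈ t, e ∣ f.eval (m : ℤ)) : #t ≤ f.natDegree := by
  by_contra hcon
  push Not at hcon
  obtain ⟨t', ht', hcard⟩ := exists_subset_card_eq (show f.natDegree + 1 ≤ #t by omega)
  obtain ⟨x, hxdef⟩ : ∃ x : ℕ → ℤ, x = fun i => if h : i < f.natDegree + 1 then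
      ((t'.orderEmbOfFin hcard ⟨i, h⟩ : ℕ) : ℤ) else 0 := ⟨_, rfl⟩
  have hx : ∀ i, (h : i < f.natDegree + 1) → x i = ((t'.orderEmbOfFin hcard ⟨i, h⟩ : ℕ) : ℤ) := by
    intro i h
    rw [hxdef]
    simp only
    rw [dif_pos h]
  have hmem : ∀ i, (h : i < f.natDegree + 1) → t'.orderEmbOfFin hcard ⟨i, h⟩ ∈ t := fun i h =>
    ht' (orderEmbOfFin_mem t' hcard _)
  obtain ⟨P, h1, h2, h3⟩ := dvd_chain H (Int.natCast_nonneg H) e f.natDegree f 1 x le_rfl (by
    intro i hi j hj hij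
    rw [hx i (by omega), hx j (by omega)]
    refine ⟨?_, ht _ (hmem _ _) _ (hmem _ _)⟩
    intro h
    apply hij
    have h5 : t'.orderEmbOfFin hcard ⟨i, by omega⟩ = t'.orderEmbOfFin hcard ⟨j, by omega⟩ := by exact_mod_cast h
    have h6 := (t'.orderEmbOfFin hcard).injective h5
    exact congrArg Fin.val h6) (by
    intro i hi
    rw [hx i (by omega), one_mul]
    exact hdvd _ (hmem _ _))
  rw [one_mul, coeff_natDegree] at h3
  have h4 : f.leadingCoeff * P = 0 := by
    apply Int.eq_zero_of_abs_lt_dvd h3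
    rw [abs_mul]
    exact lt_of_le_of_lt (mul_le_mul_of_nonneg_left h2 (abs_nonneg _)) he
  exact mul_ne_zero hf h1 h4

lemma count_dvd (f : ℤ[X]) (hf : f.leadingCoeff ≠ 0) (H : ℕ) (hH : 1 ≤ H) (e : ℤ)
    (he : |f.leadingCoeff| * (H : ℤ) ^ (∑ i ∈ range (f.natDegree + 1), i) < e) (M : ℕ) :
    #((Icc 1 M).filter (fun m : ℕ => e ∣ f.eval (m : ℤ))) ≤ f.natDegree * (M / H + 1) := by
  obtain ⟨S, hS⟩ : ∃ S, S = (Icc 1 M).filter (fun m : ℕ => e ∣ f.eval (m : ℤ)) := ⟨_, rfl⟩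
  rw [← hS]
  have h1 : #S ≤ f.natDegree * #(S.image (fun m => m / H)) := by
    apply card_le_mul_card_image
    intro k _
    apply block_card f hf H e he
    · intro m hm n hn
      rw [mem_filter] at hm hn
      have a1 := Nat.div_add_mod m H
      have a2 := Nat.div_add_mod n H
      have a3 := Nat.mod_lt m (by omega : 0 < H)
      have a4 := Nat.mod_lt n (by omega : 0 < H)
      rw [hm.2] at a1
      rw [hn.2] at a2
      rw [abs_le]
      constructor <;> omega
    · intro m hm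
      rw [mem_filter, hS, mem_filter] at hm
      exact hm.1.2
  refine h1.trans (Nat.mul_le_mul_left _ ?_)
  have h2 : S.image (fun m => m / H) ⊆ range (M / H + 1) := by
    intro k hk
    rw [mem_image] at hk
    obtain ⟨m, hm, rfl⟩ := hk
    rw [hS, mem_filter, mem_Icc] at hm
    rw [mem_range, Nat.lt_succ_iff]
    exact Nat.div_le_div_right hm.1.2
  refine (card_le_card h2).trans ?_
  rw [card_range]

/-- the values of a polynomial are not concentrated on multiples of an integer -/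
lemma poly_mult (f : ℤ[X]) (hd : 1 ≤ f.natDegree) : ∃ (γ C : ℝ) (K : ℕ), 0 < γ ∧ 1 ≤ K ∧ 0 ≤ C ∧
    (∀ m : ℕ, 1 ≤ m → (f.eval (m : ℤ)).natAbs ≤ K * m ^ f.natDegree) ∧
    ∀ M e : ℕ, 1 ≤ M → 1 ≤ e →
      (#((Icc 1 M).filter (fun m : ℕ => f.eval (m : ℤ) ≠ 0 ∧ e ∣ (f.eval (m : ℤ)).natAbs)) : ℝ) ≤
        C * M * (e : ℝ) ^ (-γ) := by
  have hf : f.leadingCoeff ≠ 0 := by
    rw [Ne, leadingCoeff_eq_zero]
    intro h
    rw [h, natDegree_zero] at hd
    omega
  obtain ⟨d, hdd⟩ : ∃ d, d = f.natDegree := ⟨_, rfl⟩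
  obtain ⟨K, hK⟩ : ∃ K : ℕ, K = ∑ i ∈ range (d + 1), (f.coeff i).natAbs := ⟨_, rfl⟩
  obtain ⟨D, hD⟩ : ∃ D : ℕ, D = ∑ i ∈ range (d + 1), i := ⟨_, rfl⟩
  have hDd : d ≤ D := by
    rw [hD, sum_range_succ]
    omega
  have hD1 : 1 ≤ D := by omega
  have hDr : (0 : ℝ) < D := by exact_mod_cast hD1
  have hdr : (0 : ℝ) < d := by exact_mod_cast (by omega : 0 < d)
  have hbound : ∀ m : ℕ, 1 ≤ m → (f.eval (m : ℤ)).natAbs ≤ K * m ^ d := by
    intro m hm
    rw [eval_eq_sum_range, ← hdd, hK, sum_mul]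
    refine (Int.natAbs_sum_le _ _).trans (sum_le_sum fun i hi => ?_)
    rw [mem_range] at hi
    rw [Int.natAbs_mul, Int.natAbs_pow, Int.natAbs_natCast]
    exact Nat.mul_le_mul_left _ (Nat.pow_le_pow_right hm (by omega))
  have hK1 : 1 ≤ K := by
    rw [hK]
    have h1 : (f.coeff d).natAbs ≤ ∑ i ∈ range (d + 1), (f.coeff i).natAbs :=
      single_le_sum (f := fun i => (f.coeff i).natAbs) (fun i _ => Nat.zero_le _) (mem_range.2 (by omega))
    have h2 : 1 ≤ (f.coeff d).natAbs := by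
      rw [hdd, coeff_natDegree]
      exact Int.natAbs_pos.2 hf
    omega
  obtain ⟨a, ha⟩ : ∃ a : ℕ, a = f.leadingCoeff.natAbs := ⟨_, rfl⟩
  have ha1 : 1 ≤ a := by
    rw [ha]
    exact Int.natAbs_pos.2 hf
  have har : (0 : ℝ) < a := by exact_mod_cast ha1
  obtain ⟨γ, hγ⟩ : ∃ γ : ℝ, γ = 1 / D := ⟨_, rfl⟩
  have hγ0 : 0 < γ := by rw [hγ]; positivity
  have hγd : γ ≤ 1 / d := by
    rw [hγ]
    apply one_div_le_one_div_of_le hdr
    exact_mod_cast hDd
  refine ⟨γ, (2 * a) ^ γ * (2 * d + 1) + d * K, K, hγ0, hK1, by positivity, hdd ▸ hbound, fun M e hM he => ?_⟩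
  have he0 : (0 : ℝ) < e := by exact_mod_cast he
  have he1 : (1 : ℝ) ≤ e := by exact_mod_cast he
  have hM0 : (0 : ℝ) < M := by exact_mod_cast hM
  have h2a : (0 : ℝ) < (2 * a) ^ γ := by positivity
  have heγ : (0 : ℝ) < (e : ℝ) ^ (-γ) := by positivity
  obtain ⟨S, hS⟩ : ∃ S, S = (Icc 1 M).filter (fun m : ℕ => f.eval (m : ℤ) ≠ 0 ∧ e ∣ (f.eval (m : ℤ)).natAbs) := ⟨_, rfl⟩
  rw [← hS]
  rcases S.eq_empty_or_nonempty with hSe | ⟨m₀, hm₀⟩
  · rw [hSe, card_empty, Nat.cast_zero]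
    positivity
  obtain ⟨z, hz⟩ : ∃ z : ℝ, z = ((e : ℝ) / (2 * a)) ^ γ := ⟨_, rfl⟩
  have hz0 : 0 < z := by rw [hz]; positivity
  have hzinv : 1 / z = (2 * a) ^ γ * (e : ℝ) ^ (-γ) := by
    rw [hz, Real.div_rpow he0.le (by positivity), Real.rpow_neg he0.le]
    field_simp
  obtain ⟨H, hH⟩ : ∃ H : ℕ, H = ⌊z⌋₊ := ⟨_, rfl⟩
  rcases Nat.eq_zero_or_pos H with hH0 | hHpos
  · -- `e` is small
    have hz1 : z < 1 := by
      rw [hH, Nat.floor_eq_zero] at hH0
      exact hH0
    have h1 : (1 : ℝ) ≤ 1 / z := by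
      rw [le_div_iff₀ hz0]
      linarith
    have h2 : #S ≤ M := by
      rw [hS]
      refine (card_filter_le _ _).trans ?_
      rw [Nat.card_Icc]
      omega
    calc (#S : ℝ) ≤ M := by exact_mod_cast h2
      _ ≤ M * (1 / z) := le_mul_of_one_le_right hM0.le h1
      _ = ((2 * a) ^ γ * 1 + 0) * M * (e : ℝ) ^ (-γ) := by
          rw [hzinv]
          ring
      _ ≤ ((2 * a) ^ γ * (2 * d + 1) + d * K) * M * (e : ℝ) ^ (-γ) := by
          have h3 : (0 : ℝ) ≤ d * K := by positivity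
          have h4 : (1 : ℝ) ≤ 2 * d + 1 := by linarith
          gcongr
  · have hHz : (H : ℝ) ≤ z := by rw [hH]; exact Nat.floor_le hz0.le
    have hzH : z < 2 * H := by
      have h1 : z < H + 1 := by rw [hH]; exact Nat.lt_floor_add_one z
      have h2 : (1 : ℝ) ≤ H := by exact_mod_cast hHpos
      linarith
    have hHr : (0 : ℝ) < H := by exact_mod_cast hHpos
    have hlt : |f.leadingCoeff| * (H : ℤ) ^ (∑ i ∈ range (f.natDegree + 1), i) < (e : ℤ) := by
      rw [← hdd, ← hD]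
      have h1 : (a : ℝ) * (H : ℝ) ^ D < e := by
        have h2 : (H : ℝ) ^ D ≤ z ^ D := pow_le_pow_left₀ hHr.le hHz _
        have h3 : z ^ D = (e : ℝ) / (2 * a) := by
          rw [hz, ← Real.rpow_natCast, ← Real.rpow_mul (by positivity), hγ]
          have : 1 / (D : ℝ) * D = 1 := by field_simp
          rw [this, Real.rpow_one]
        rw [h3] at h2
        calc (a : ℝ) * (H : ℝ) ^ D ≤ a * ((e : ℝ) / (2 * a)) := mul_le_mul_of_nonneg_left h2 har.le
          _ = e / 2 := by field_simp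
          _ < e := by linarith
      have h4 : |f.leadingCoeff| = (a : ℤ) := by
        rw [ha]
        exact (Int.natCast_natAbs _).symm
      rw [h4]
      exact_mod_cast h1
    have h1 := count_dvd f hf H hHpos e hlt M
    rw [← hdd] at h1
    have h2 : S ⊆ (Icc 1 M).filter (fun m : ℕ => (e : ℤ) ∣ f.eval (m : ℤ)) := by
      intro m hm
      rw [hS, mem_filter] at hm
      rw [mem_filter]
      exact ⟨hm.1, Int.natCast_dvd.2 hm.2.2⟩
    have h3 : (#S : ℝ) ≤ d * ((M / H : ℕ) + 1) := by exact_mod_cast (card_le_card h2).trans h1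
    have h4 : ((M / H : ℕ) : ℝ) ≤ 2 * M * (1 / z) := by
      refine Nat.cast_div_le.trans ?_
      rw [mul_one_div, div_le_div_iff₀ hHr hz0]
      nlinarith
    have h5 : (1 : ℝ) ≤ K * M * (e : ℝ) ^ (-γ) := by
      rw [hS, mem_filter, mem_Icc] at hm₀
      obtain ⟨⟨m1, m2⟩, m3, m4⟩ := hm₀
      have e1 : e ≤ K * M ^ d := (Nat.le_of_dvd (Int.natAbs_pos.2 m3) m4).trans
        ((hbound m₀ m1).trans (Nat.mul_le_mul_left _ (Nat.pow_le_pow_left m2 _)))
      have e2 : (e : ℝ) ≤ (K * M) ^ (d : ℝ) := by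
        have e3 : (e : ℝ) ≤ K * (M : ℝ) ^ d := by exact_mod_cast e1
        rw [Real.rpow_natCast, mul_pow]
        refine e3.trans (mul_le_mul_of_nonneg_right ?_ (by positivity))
        exact_mod_cast Nat.le_self_pow (by omega) K
      have e3 : (e : ℝ) ^ γ ≤ K * M := by
        calc (e : ℝ) ^ γ ≤ (e : ℝ) ^ (1 / (d : ℝ)) := Real.rpow_le_rpow_of_exponent_le he1 hγd
          _ ≤ ((K * M) ^ (d : ℝ)) ^ (1 / (d : ℝ)) := Real.rpow_le_rpow he0.le e2 (by positivity)
          _ = K * M := by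
              rw [← Real.rpow_mul (by positivity)]
              have : (d : ℝ) * (1 / d) = 1 := by field_simp
              rw [this, Real.rpow_one]
      rw [Real.rpow_neg he0.le, ← div_eq_mul_inv, le_div_iff₀ (by positivity), one_mul]
      exact e3
    calc (#S : ℝ) ≤ d * ((M / H : ℕ) + 1) := h3
      _ ≤ d * (2 * M * (1 / z) + K * M * (e : ℝ) ^ (-γ)) := by gcongr
      _ = ((2 * a) ^ γ * (2 * d + 0) + d * K) * M * (e : ℝ) ^ (-γ) := by
          rw [hzinv]
          ring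
      _ ≤ ((2 * a) ^ γ * (2 * d + 1) + d * K) * M * (e : ℝ) ^ (-γ) := by
          gcongr
          norm_num

end Pool.Agent.L7h6.BC
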