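import Pool.Agent.L7h6.BC.Main
import Pool.Agent.L7h6.BC.Main3
import Pool.Agent.L7h6.BC.Poly

set_option autoImplicit false

/-! Corollaries: thin sets and values of polynomials. -/

namespace Pool.Agent.L7h6.BC

open Finset
open Pool.Agent.Y883.T3 (ev_log_rpow)
open Pool.Agent.Y883.T5 (Admissible)
open Pool.Agent.Y883.T6

lemma small_mono {μ μ' : ℝ} (h : μ ≤ μ') {a b c d : ℤ} (hs : SmallSolution μ a b c d) : SmallSolution μ' a b c d := by
  obtain ⟨p, q, r, s1, s2, s3, s4, s5⟩ := hs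
  refine ⟨p, q, r, s1, s2, s3, s4, s5.trans ?_⟩
  have h1 : (1 : ℝ) ≤ ((max 3 (max |a| (max |b| |c|)) : ℤ) : ℝ) := by
    have : (1 : ℤ) ≤ max 3 (max |a| (max |b| |c|)) := le_trans (by norm_num) (le_max_left _ _)
    exact_mod_cast this
  have := Real.rpow_le_rpow_of_exponent_le h1 h
  linarith

lemma One.mono {μ μ' : ℝ} (h : μ ≤ μ') {T n : ℕ} (hs : One μ T n) : One μ' T n :=
  fun a b c d h1 h2 h3 h4 => small_mono h (hs a b c d h1 h2 h3 h4)

lemma Three.mono {μ μ' : ℝ} (h : μ ≤ μ') {l m n : ℕ} (hs : Three μ l m n) : Three μ' l m n :=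
  fun a b c d h1 h2 h3 h4 => small_mono h (hs a b c d h1 h2 h3 h4)

open Classical in
/-- one large coefficient from a thin set -/
theorem thin_one {S : Set ℕ} {α δ : ℝ} (hα : 0 < α) (hδ : 0 < δ) (hS : Thin S α δ) (ε : ℝ) (hε : 0 < ε)
    (A T : ℕ) : ∃ X₀ : ℕ, ∀ X : ℕ, X₀ ≤ X →
      (#{n ∈ Up S X | ¬ One (max 1 (min (2 - α) (3 / 2)) + ε) T n} : ℝ) ≤ (#(Up S X) : ℝ) / Real.log X ^ A := by
  obtain ⟨ε', hε'⟩ : ∃ ε' : ℝ, ε' = min (α / 2) (ε / 2) := ⟨_, rfl⟩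
  have hε0 : 0 < ε' := by
    rw [hε']
    positivity
  have hεα : ε' ≤ α / 2 := by
    rw [hε']
    exact min_le_left _ _
  have hεε : ε' ≤ ε / 2 := by
    rw [hε']
    exact min_le_right _ _
  obtain ⟨C, X₁, hC⟩ := hS.mult
  obtain ⟨X₂, hlow⟩ := hS.lower ε' hε0
  obtain ⟨X₃, hmain⟩ := one_law (α - ε') δ C (ε / 2) (by linarith) hδ (by positivity) 0 A T
  have hexp : max 1 (min (2 - (α - ε')) (3 / 2)) + ε / 2 ≤ max 1 (min (2 - α) (3 / 2)) + ε := by
    have h1 : min (2 - (α - ε')) (3 / 2) ≤ min (2 - α) (3 / 2) + ε' := by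
      rw [← min_add_add_right]
      exact min_le_min (by linarith) (by linarith)
    have h2 : max 1 (min (2 - (α - ε')) (3 / 2)) ≤ max 1 (min (2 - α) (3 / 2)) + ε' := by
      apply max_le
      · linarith [le_max_left 1 (min (2 - α) (3 / 2))]
      · linarith [le_max_right 1 (min (2 - α) (3 / 2))]
    linarith
  refine ⟨X₁ + X₂ + X₃ + 1, fun X hX => ?_⟩
  have hX0 : (0 : ℝ) < X := by exact_mod_cast (by omega : 0 < X)
  obtain ⟨M, hM⟩ : ∃ M : ℝ, M = #(Up S X) := ⟨_, rfl⟩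
  have hMlow := hlow X (by omega)
  rw [← hM] at hMlow ⊢
  have hM0 : 0 < M := lt_of_lt_of_le (Real.rpow_pos_of_pos hX0 _) hMlow
  have hsp : Spread (α - ε') δ C 0 X (Up S X) (fun _ => 1 / M) (fun n => n) := by
    refine ⟨fun i _ => by positivity, fun i hi => (mem_Up.1 hi).1, fun n => ?_, fun e he => ?_⟩
    · rw [sum_const, nsmul_eq_mul]
      have h1 : #((Up S X).filter (fun i => i = n)) ≤ 1 := by
        rw [card_le_one]
        intro a ha b hb
        rw [(mem_filter.1 ha).2, (mem_filter.1 hb).2]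
      have h2 : (#((Up S X).filter (fun i => i = n)) : ℝ) ≤ 1 := by exact_mod_cast h1
      rw [Real.rpow_neg hX0.le]
      calc _ ≤ 1 * (1 / M) := mul_le_mul_of_nonneg_right h2 (by positivity)
        _ ≤ _ := by
            rw [one_mul, ← one_div]
            exact one_div_le_one_div_of_le (Real.rpow_pos_of_pos hX0 _) hMlow
    · rw [sum_const, nsmul_eq_mul, pow_zero, mul_one]
      have h1 := hC X e (by omega) he
      rw [← hM] at h1
      calc _ ≤ (C * M * (e : ℝ) ^ (-δ)) * (1 / M) := mul_le_mul_of_nonneg_right h1 (by positivity)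
        _ = _ := by field_simp
  have h3 := hmain X (by omega) ℕ (Up S X) (fun _ => 1 / M) (fun n => n) hsp
  rw [sum_const, nsmul_eq_mul] at h3
  have h4 : (#{n ∈ Up S X | ¬ One (max 1 (min (2 - α) (3 / 2)) + ε) T n} : ℝ) ≤
      #{n ∈ Up S X | ¬ One (max 1 (min (2 - (α - ε')) (3 / 2)) + ε / 2) T n} := by
    exact_mod_cast card_le_card (by
      intro n hn
      rw [mem_filter] at hn ⊢
      exact ⟨hn.1, fun h => hn.2 (One.mono hexp h)⟩)
  refine h4.trans ?_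
  rw [mul_one_div, div_le_iff₀ hM0] at h3
  calc _ ≤ 1 / Real.log X ^ A * M := h3
    _ = M / Real.log X ^ A := by ring

lemma card_triple {U V W : Finset ℕ} (P Q R : ℕ → Prop) [DecidablePred P] [DecidablePred Q] [DecidablePred R] :
    #{t ∈ U ×ˢ V ×ˢ W | P t.1 ∧ Q t.2.1 ∧ R t.2.2} = #(U.filter P) * (#(V.filter Q) * #(W.filter R)) := by
  rw [← card_product, ← card_product]
  congr 1
  ext ⟨a, b, c⟩
  simp only [mem_filter, mem_product]
  tauto

open Classical in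
/-- three coefficients from thin sets -/
theorem thin_three {S₁ S₂ S₃ : Set ℕ} {α₁ α₂ α₃ β δ : ℝ} (hβ : 0 < β) (hδ : 1 / 2 < δ) (hS₁ : Thin S₁ α₁ δ)
    (hS₂ : Thin S₂ α₂ δ) (hS₃ : Thin S₃ α₃ δ) (h₁₂ : β ≤ α₁ + α₂) (h₂₃ : β ≤ α₂ + α₃) (h₃₁ : β ≤ α₃ + α₁)
    (ε : ℝ) (hε : 0 < ε) (A : ℕ) : ∃ X₀ : ℕ, ∀ X : ℕ, X₀ ≤ X →
      (#{t ∈ Up S₁ X ×ˢ Up S₂ X ×ˢ Up S₃ X | ¬ Three (max 2 (min (4 - β) 3) + ε) t.1 t.2.1 t.2.2} : ℝ) ≤
        (#(Up S₁ X) : ℝ) * #(Up S₂ X) * #(Up S₃ X) / Real.log X ^ A := by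
  obtain ⟨ε', hε'⟩ : ∃ ε' : ℝ, ε' = min (β / 4) (ε / 4) := ⟨_, rfl⟩
  have hε0 : 0 < ε' := by
    rw [hε']
    positivity
  have hεα : ε' ≤ β / 4 := by
    rw [hε']
    exact min_le_left _ _
  have hεε : ε' ≤ ε / 4 := by
    rw [hε']
    exact min_le_right _ _
  obtain ⟨C₁, X₁, hC₁⟩ := hS₁.mult
  obtain ⟨C₂, X₂, hC₂⟩ := hS₂.mult
  obtain ⟨C₃, X₃, hC₃⟩ := hS₃.mult
  obtain ⟨Y₁, hl₁⟩ := hS₁.lower ε' hε0
  obtain ⟨Y₂, hl₂⟩ := hS₂.lower ε' hε0
  obtain ⟨Y₃, hl₃⟩ := hS₃.lower ε' hε0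
  obtain ⟨C, hC⟩ : ∃ C : ℝ, C = |C₁| + |C₂| + |C₃| := ⟨_, rfl⟩
  have q1 := le_abs_self C₁
  have q2 := le_abs_self C₂
  have q3 := le_abs_self C₃
  have r1 := abs_nonneg C₁
  have r2 := abs_nonneg C₂
  have r3 := abs_nonneg C₃
  have hC0 : 0 ≤ C := by rw [hC]; positivity
  obtain ⟨X₄, hmain⟩ := three_law (β - 2 * ε') δ (C * C) (ε / 2) (by linarith) hδ (by positivity) 0 A
  have hexp : max 2 (min (4 - (β - 2 * ε')) 3) + ε / 2 ≤ max 2 (min (4 - β) 3) + ε := by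
    have h1 : min (4 - (β - 2 * ε')) 3 ≤ min (4 - β) 3 + 2 * ε' := by
      rw [← min_add_add_right]
      exact min_le_min (by linarith) (by linarith)
    have h2 : max 2 (min (4 - (β - 2 * ε')) 3) ≤ max 2 (min (4 - β) 3) + 2 * ε' := by
      apply max_le
      · linarith [le_max_left 2 (min (4 - β) 3)]
      · linarith [le_max_right 2 (min (4 - β) 3)]
    linarith
  refine ⟨X₁ + X₂ + X₃ + X₄ + Y₁ + Y₂ + Y₃ + 1, fun X hX => ?_⟩
  have hX0 : (0 : ℝ) < X := by exact_mod_cast (by omega : 0 < X)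
  obtain ⟨M₁, hM₁⟩ : ∃ M : ℝ, M = #(Up S₁ X) := ⟨_, rfl⟩
  obtain ⟨M₂, hM₂⟩ : ∃ M : ℝ, M = #(Up S₂ X) := ⟨_, rfl⟩
  obtain ⟨M₃, hM₃⟩ : ∃ M : ℝ, M = #(Up S₃ X) := ⟨_, rfl⟩
  have hlow₁ := hl₁ X (by omega)
  have hlow₂ := hl₂ X (by omega)
  have hlow₃ := hl₃ X (by omega)
  rw [← hM₁] at hlow₁ ⊢
  rw [← hM₂] at hlow₂ ⊢
  rw [← hM₃] at hlow₃ ⊢
  have hp₁ : 0 < M₁ := lt_of_lt_of_le (Real.rpow_pos_of_pos hX0 _) hlow₁
  have hp₂ : 0 < M₂ := lt_of_lt_of_le (Real.rpow_pos_of_pos hX0 _) hlow₂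
  have hp₃ : 0 < M₃ := lt_of_lt_of_le (Real.rpow_pos_of_pos hX0 _) hlow₃
  obtain ⟨N, hN⟩ : ∃ N : ℝ, N = M₁ * M₂ * M₃ := ⟨_, rfl⟩
  have hN0 : 0 < N := by rw [hN]; positivity
  -- counting
  have hmul : ∀ (S : Set ℕ) (α Ci : ℝ) (M : ℝ), M = #(Up S X) → 0 < M → |Ci| ≤ C →
      (∀ e : ℕ, 1 ≤ e → (#((Up S X).filter (fun n => e ∣ n)) : ℝ) ≤ Ci * (#(Up S X) : ℝ) * (e : ℝ) ^ (-δ)) →
      ∀ e : ℕ, 1 ≤ e → (#((Up S X).filter (fun n => e ∣ n)) : ℝ) ≤ C * M * (e : ℝ) ^ (-δ) := by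
    intro S α Ci M hM hMp hCi h e he
    refine (h e he).trans ?_
    rw [← hM]
    have := le_abs_self Ci
    have h5 : Ci ≤ C := by linarith
    have h6 : 0 ≤ (e : ℝ) ^ (-δ) := by positivity
    gcongr
  have k₁ := hmul S₁ α₁ C₁ M₁ hM₁ hp₁ (by rw [hC]; linarith) (fun e he => hC₁ X e (by omega) he)
  have k₂ := hmul S₂ α₂ C₂ M₂ hM₂ hp₂ (by rw [hC]; linarith) (fun e he => hC₂ X e (by omega) he)
  have k₃ := hmul S₃ α₃ C₃ M₃ hM₃ hp₃ (by rw [hC]; linarith) (fun e he => hC₃ X e (by omega) he)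
  have hone : ∀ (S : Set ℕ) (m : ℕ), (#((Up S X).filter (fun n => n = m)) : ℝ) ≤ 1 := by
    intro S m
    have h1 : #((Up S X).filter (fun i => i = m)) ≤ 1 := by
      rw [card_le_one]
      intro a ha b hb
      rw [(mem_filter.1 ha).2, (mem_filter.1 hb).2]
    exact_mod_cast h1
  have htrue : ∀ S : Set ℕ, (#((Up S X).filter (fun _ => True)) : ℝ) = #(Up S X) := by
    intro S
    rw [filter_true]
  have hpt : ∀ u v : ℝ, (X : ℝ) ^ (u - ε') ≤ v → ∀ u' v' : ℝ, (X : ℝ) ^ (u' - ε') ≤ v' → β ≤ u + u' →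
      1 / (v * v') ≤ (X : ℝ) ^ (-(β - 2 * ε')) := by
    intro u v huv u' v' huv' hβu
    rw [Real.rpow_neg hX0.le, ← one_div]
    apply one_div_le_one_div_of_le (Real.rpow_pos_of_pos hX0 _)
    calc (X : ℝ) ^ (β - 2 * ε') ≤ (X : ℝ) ^ ((u - ε') + (u' - ε')) :=
          Real.rpow_le_rpow_of_exponent_le (by exact_mod_cast (by omega : 1 ≤ X)) (by linarith)
      _ = (X : ℝ) ^ (u - ε') * (X : ℝ) ^ (u' - ε') := Real.rpow_add hX0 _ _
      _ ≤ v * v' := mul_le_mul huv huv' (by positivity)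
          (le_trans (by positivity) huv)
  obtain ⟨s, hs⟩ : ∃ s, s = Up S₁ X ×ˢ Up S₂ X ×ˢ Up S₃ X := ⟨_, rfl⟩
  have hr : ∀ i ∈ s, ((1 ≤ i.1 ∧ i.1 ≤ X) ∧ (1 ≤ i.2.1 ∧ i.2.1 ≤ X)) ∧ (1 ≤ i.2.2 ∧ i.2.2 ≤ X) := by
    intro i hi
    rw [hs, mem_product, mem_product] at hi
    exact ⟨⟨(mem_Up.1 hi.1).1, (mem_Up.1 hi.2.1).1⟩, (mem_Up.1 hi.2.2).1⟩
  have hab : SpreadPair (β - 2 * ε') δ (C * C) 0 X s (fun _ => 1 / N) (fun t => t.1) (fun t => t.2.1) := by
    refine ⟨fun i _ => by positivity, fun i hi => (hr i hi).1, fun m n => ?_, fun e f he hf => ?_⟩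
    · rw [sum_const, nsmul_eq_mul]
      have h1 : #{t ∈ s | t.1 = m ∧ t.2.1 = n} = #{t ∈ s | t.1 = m ∧ t.2.1 = n ∧ True} := by
        simp only [and_true]
      rw [h1, hs, card_triple (fun x => x = m) (fun x => x = n) (fun _ => True)]
      push_cast
      rw [htrue, ← hM₃]
      refine le_trans ?_ (hpt α₁ M₁ hlow₁ α₂ M₂ hlow₂ h₁₂)
      calc _ ≤ 1 * (1 * M₃) * (1 / N) := by
            gcongr
            · exact hone _ _
            · exact hone _ _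
        _ = 1 / (M₁ * M₂) := by
            rw [hN]
            field_simp
    · rw [sum_const, nsmul_eq_mul, pow_zero, mul_one]
      have h1 : #{t ∈ s | e ∣ t.1 ∧ f ∣ t.2.1} = #{t ∈ s | e ∣ t.1 ∧ f ∣ t.2.1 ∧ True} := by
        simp only [and_true]
      rw [h1, hs, card_triple (fun x => e ∣ x) (fun x => f ∣ x) (fun _ => True)]
      push_cast
      rw [htrue, ← hM₃, Real.mul_rpow (Nat.cast_nonneg _) (Nat.cast_nonneg _)]
      calc _ ≤ (C * M₁ * (e : ℝ) ^ (-δ)) * ((C * M₂ * (f : ℝ) ^ (-δ)) * M₃) * (1 / N) := by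
            gcongr
            · exact k₁ e he
            · exact k₂ f hf
        _ = _ := by
            rw [hN]
            field_simp
  have hbc : SpreadPair (β - 2 * ε') δ (C * C) 0 X s (fun _ => 1 / N) (fun t => t.2.1) (fun t => t.2.2) := by
    refine ⟨fun i _ => by positivity, fun i hi => ⟨(hr i hi).1.2, (hr i hi).2⟩, fun m n => ?_, fun e f he hf => ?_⟩
    · rw [sum_const, nsmul_eq_mul]
      have h1 : #{t ∈ s | t.2.1 = m ∧ t.2.2 = n} = #{t ∈ s | True ∧ t.2.1 = m ∧ t.2.2 = n} := by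
        simp only [true_and]
      rw [h1, hs, card_triple (fun _ => True) (fun x => x = m) (fun x => x = n)]
      push_cast
      rw [htrue, ← hM₁]
      refine le_trans ?_ (hpt α₂ M₂ hlow₂ α₃ M₃ hlow₃ h₂₃)
      calc _ ≤ M₁ * (1 * 1) * (1 / N) := by
            gcongr
            · exact hone _ _
            · exact hone _ _
        _ = 1 / (M₂ * M₃) := by
            rw [hN]
            field_simp
    · rw [sum_const, nsmul_eq_mul, pow_zero, mul_one]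
      have h1 : #{t ∈ s | e ∣ t.2.1 ∧ f ∣ t.2.2} = #{t ∈ s | True ∧ e ∣ t.2.1 ∧ f ∣ t.2.2} := by
        simp only [true_and]
      rw [h1, hs, card_triple (fun _ => True) (fun x => e ∣ x) (fun x => f ∣ x)]
      push_cast
      rw [htrue, ← hM₁, Real.mul_rpow (Nat.cast_nonneg _) (Nat.cast_nonneg _)]
      calc _ ≤ M₁ * ((C * M₂ * (e : ℝ) ^ (-δ)) * (C * M₃ * (f : ℝ) ^ (-δ))) * (1 / N) := by
            gcongr
            · exact k₂ e he
            · exact k₃ f hf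
        _ = _ := by
            rw [hN]
            field_simp
  have hca : SpreadPair (β - 2 * ε') δ (C * C) 0 X s (fun _ => 1 / N) (fun t => t.2.2) (fun t => t.1) := by
    refine ⟨fun i _ => by positivity, fun i hi => ⟨(hr i hi).2, (hr i hi).1.1⟩, fun m n => ?_, fun e f he hf => ?_⟩
    · rw [sum_const, nsmul_eq_mul]
      have h1 : #{t ∈ s | t.2.2 = m ∧ t.1 = n} = #{t ∈ s | t.1 = n ∧ True ∧ t.2.2 = m} := by
        congr 1
        ext t
        simp only [mem_filter]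
        tauto
      rw [h1, hs, card_triple (fun x => x = n) (fun _ => True) (fun x => x = m)]
      push_cast
      rw [htrue, ← hM₂]
      refine le_trans ?_ (hpt α₃ M₃ hlow₃ α₁ M₁ hlow₁ h₃₁)
      calc _ ≤ 1 * (M₂ * 1) * (1 / N) := by
            gcongr
            · exact hone _ _
            · exact hone _ _
        _ = 1 / (M₃ * M₁) := by
            rw [hN]
            field_simp
    · rw [sum_const, nsmul_eq_mul, pow_zero, mul_one]
      have h1 : #{t ∈ s | e ∣ t.2.2 ∧ f ∣ t.1} = #{t ∈ s | f ∣ t.1 ∧ True ∧ e ∣ t.2.2} := by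
        congr 1
        ext t
        simp only [mem_filter]
        tauto
      rw [h1, hs, card_triple (fun x => f ∣ x) (fun _ => True) (fun x => e ∣ x)]
      push_cast
      rw [htrue, ← hM₂, Real.mul_rpow (Nat.cast_nonneg _) (Nat.cast_nonneg _)]
      calc _ ≤ (C * M₁ * (f : ℝ) ^ (-δ)) * (M₂ * (C * M₃ * (e : ℝ) ^ (-δ))) * (1 / N) := by
            gcongr
            · exact k₁ f hf
            · exact k₃ e he
        _ = _ := by
            rw [hN]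
            field_simp
  have h3 := hmain X (by omega) (ℕ × ℕ × ℕ) s (fun _ => 1 / N) (fun t => t.1) (fun t => t.2.1) (fun t => t.2.2)
    hab hbc hca
  rw [sum_const, nsmul_eq_mul] at h3
  rw [← hs, ← hN]
  have h4 : (#{t ∈ s | ¬ Three (max 2 (min (4 - β) 3) + ε) t.1 t.2.1 t.2.2} : ℝ) ≤
      #{t ∈ s | ¬ Three (max 2 (min (4 - (β - 2 * ε')) 3) + ε / 2) t.1 t.2.1 t.2.2} := by
    exact_mod_cast card_le_card (by
      intro n hn
      rw [mem_filter] at hn ⊢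
      exact ⟨hn.1, fun h => hn.2 (Three.mono hexp h)⟩)
  refine h4.trans ?_
  rw [mul_one_div, div_le_iff₀ hN0] at h3
  calc _ ≤ 1 / Real.log X ^ A * N := h3
    _ = N / Real.log X ^ A := by ring

open Polynomial in
lemma value_card (f : ℤ[X]) (hd : 1 ≤ f.natDegree) (M : ℕ) (n : ℤ) :
    #{m ∈ Icc 1 M | f.eval ((m : ℕ) : ℤ) = n} ≤ f.natDegree := by
  have hne : f - C n ≠ 0 := by
    intro h
    have h1 : (f - C n).natDegree = f.natDegree := natDegree_sub_C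
    rw [h, natDegree_zero] at h1
    omega
  have h1 : #{m ∈ Icc 1 M | f.eval ((m : ℕ) : ℤ) = n} ≤ #(f - C n).roots.toFinset := by
    apply card_le_card_of_injOn (fun m : ℕ => (m : ℤ))
    · intro m hm
      rw [mem_coe, mem_filter] at hm
      rw [mem_coe, Multiset.mem_toFinset, mem_roots hne]
      simp [hm.2]
    · intro a _ b _ h
      exact_mod_cast (show (a : ℤ) = b from h)
  refine h1.trans ((Multiset.toFinset_card_le _).trans ((card_roots' _).trans ?_))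
  exact natDegree_sub_C.le

open Classical Polynomial in
/-- the values of a polynomial as coefficients -/
theorem poly_one (f : ℤ[X]) (hd : 1 ≤ f.natDegree) (ε : ℝ) (hε : 0 < ε) (A T : ℕ) :
    ∃ M₀ : ℕ, ∀ M : ℕ, M₀ ≤ M →
      (#{m ∈ Icc 1 M | ¬ One (max 1 (min (2 - 1 / (f.natDegree : ℝ)) (3 / 2)) + ε) T
        (f.eval ((m : ℕ) : ℤ)).natAbs} : ℝ) ≤ (M : ℝ) / Real.log M ^ A := by
  obtain ⟨γ, C, K, hγ, hK1, hC0, hbound, hmult⟩ := poly_mult f hd
  obtain ⟨d, hdd⟩ : ∃ d, d = f.natDegree := ⟨_, rfl⟩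
  rw [← hdd] at hbound ⊢
  have hd1 : 1 ≤ d := by omega
  have hdr : (0 : ℝ) < d := by exact_mod_cast hd1
  have hd1r : (1 : ℝ) ≤ d := by exact_mod_cast hd1
  have hKr : (1 : ℝ) ≤ K := by exact_mod_cast hK1
  obtain ⟨ε', hε'⟩ : ∃ ε' : ℝ, ε' = min (1 / (2 * (d : ℝ))) (ε / 2) := ⟨_, rfl⟩
  have hε0 : 0 < ε' := by
    rw [hε']
    positivity
  have hεα : ε' ≤ 1 / (2 * (d : ℝ)) := by
    rw [hε']
    exact min_le_left _ _
  have hεε : ε' ≤ ε / 2 := by
    rw [hε']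
    exact min_le_right _ _
  have hhalf : 1 / (2 * (d : ℝ)) = 1 / d - 1 / (2 * d) := by
    field_simp
    norm_num
  obtain ⟨h, hh⟩ : ∃ h : ℝ, h = 1 / d - ε' := ⟨_, rfl⟩
  have hh0 : 0 < h := by
    have : (0 : ℝ) < 1 / (2 * d) := by positivity
    rw [hh]
    linarith
  have hh1 : h ≤ 1 := by
    have : 1 / (d : ℝ) ≤ 1 := by
      rw [div_le_one hdr]
      exact hd1r
    rw [hh]
    linarith
  obtain ⟨X₃, hmain⟩ := one_law h γ C (ε / 2) hh0 hγ (by positivity) 0 A T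
  have hexp : max 1 (min (2 - h) (3 / 2)) + ε / 2 ≤ max 1 (min (2 - 1 / (d : ℝ)) (3 / 2)) + ε := by
    have h1 : min (2 - h) (3 / 2) ≤ min (2 - 1 / (d : ℝ)) (3 / 2) + ε' := by
      rw [← min_add_add_right]
      exact min_le_min (by linarith) (by linarith)
    have h2 : max 1 (min (2 - h) (3 / 2)) ≤ max 1 (min (2 - 1 / (d : ℝ)) (3 / 2)) + ε' := by
      apply max_le
      · linarith [le_max_left 1 (min (2 - 1 / (d : ℝ)) (3 / 2))]
      · linarith [le_max_right 1 (min (2 - 1 / (d : ℝ)) (3 / 2))]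
    linarith
  obtain ⟨N₁, h1⟩ := ev_log_rpow 0 (2 * d * K) (d * ε') (by positivity)
  obtain ⟨N₂, hN2, h2⟩ := log_ge 1
  refine ⟨X₃ + N₁ + N₂ + 1, fun M hM => ?_⟩
  have hM1 : 1 ≤ M := by omega
  have hM0 : (0 : ℝ) < M := by exact_mod_cast hM1
  obtain ⟨X, hX⟩ : ∃ X : ℕ, X = K * M ^ d := ⟨_, rfl⟩
  have hXM : M ≤ X := by
    rw [hX]
    calc M ≤ M ^ d := Nat.le_self_pow (by omega) M
      _ ≤ K * M ^ d := Nat.le_mul_of_pos_left _ hK1
  have hX0 : (0 : ℝ) < X := by exact_mod_cast (by omega : 0 < X)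
  obtain ⟨s, hs⟩ : ∃ s : Finset ℕ, s = {m ∈ Icc 1 M | f.eval ((m : ℕ) : ℤ) ≠ 0} := ⟨_, rfl⟩
  have hsp : Spread h γ C 0 X s (fun _ => 1 / (M : ℝ)) (fun m => (f.eval (m : ℤ)).natAbs) := by
    refine ⟨fun i _ => by positivity, fun i hi => ?_, fun n => ?_, fun e he => ?_⟩
    · rw [hs, mem_filter, mem_Icc] at hi
      refine ⟨Int.natAbs_pos.2 hi.2, (hbound i hi.1.1).trans ?_⟩
      rw [hX]
      exact Nat.mul_le_mul_left _ (Nat.pow_le_pow_left hi.1.2 _)
    · rw [sum_const, nsmul_eq_mul]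
      have e1 : #{i ∈ s | (f.eval ((i : ℕ) : ℤ)).natAbs = n} ≤ d + d := by
        have e2 : {i ∈ s | (f.eval ((i : ℕ) : ℤ)).natAbs = n} ⊆
            {m ∈ Icc 1 M | f.eval ((m : ℕ) : ℤ) = n} ∪ {m ∈ Icc 1 M | f.eval ((m : ℕ) : ℤ) = -n} := by
          intro i hi
          rw [mem_filter, hs, mem_filter] at hi
          rw [mem_union, mem_filter, mem_filter]
          rcases Int.natAbs_eq (f.eval (i : ℤ)) with h5 | h5
          · left
            rw [hi.2] at h5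
            exact ⟨hi.1.1, h5⟩
          · right
            rw [hi.2] at h5
            exact ⟨hi.1.1, h5⟩
        refine (card_le_card e2).trans ((card_union_le _ _).trans ?_)
        rw [hdd]
        exact Nat.add_le_add (value_card f hd M n) (value_card f hd M (-n))
      have e3 : (#{i ∈ s | (f.eval ((i : ℕ) : ℤ)).natAbs = n} : ℝ) ≤ d + d := by exact_mod_cast e1
      rw [Real.rpow_neg hX0.le]
      have e4 : (X : ℝ) ^ h ≤ K * ((M : ℝ) ^ (1 - d * ε')) := by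
        rw [hX]
        push_cast
        rw [Real.mul_rpow (Nat.cast_nonneg _) (by positivity), ← Real.rpow_natCast, ← Real.rpow_mul hM0.le]
        have e5 : (d : ℝ) * h = 1 - d * ε' := by
          rw [hh, mul_sub]
          field_simp
        rw [e5]
        apply mul_le_mul_of_nonneg_right _ (by positivity)
        calc (K : ℝ) ^ h ≤ (K : ℝ) ^ (1 : ℝ) := Real.rpow_le_rpow_of_exponent_le hKr hh1
          _ = K := Real.rpow_one _
      have e6 : 2 * d * K ≤ (M : ℝ) ^ (d * ε') := by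
        have := h1 M (by omega)
        rwa [pow_zero, mul_one] at this
      have hXh : (0 : ℝ) < (X : ℝ) ^ h := Real.rpow_pos_of_pos hX0 _
      rw [mul_one_div, ← one_div, div_le_div_iff₀ hM0 hXh, one_mul]
      calc _ ≤ ((d : ℝ) + d) * (K * ((M : ℝ) ^ (1 - d * ε'))) := by gcongr
        _ = (2 * d * K) * (M : ℝ) ^ (1 - d * ε') := by ring
        _ ≤ (M : ℝ) ^ (d * ε') * (M : ℝ) ^ (1 - d * ε') := mul_le_mul_of_nonneg_right e6 (by positivity)
        _ = (M : ℝ) ^ (1 : ℝ) := by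
            rw [← Real.rpow_add hM0]
            congr 1
            ring
        _ = M := Real.rpow_one _
    · rw [sum_const, nsmul_eq_mul, pow_zero, mul_one]
      have e1 := hmult M e hM1 he
      have e2 : {i ∈ s | e ∣ (f.eval ((i : ℕ) : ℤ)).natAbs} =
          (Icc 1 M).filter (fun m : ℕ => f.eval (m : ℤ) ≠ 0 ∧ e ∣ (f.eval (m : ℤ)).natAbs) := by
        ext i
        rw [hs]
        simp only [mem_filter]
        tauto
      rw [e2]
      calc _ ≤ (C * M * (e : ℝ) ^ (-γ)) * (1 / M) := mul_le_mul_of_nonneg_right e1 (by positivity)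
        _ = _ := by field_simp
  have h3 := hmain X (by omega) ℕ s _ _ hsp
  rw [sum_const, nsmul_eq_mul] at h3
  have h4 : (#{m ∈ Icc 1 M | ¬ One (max 1 (min (2 - 1 / (d : ℝ)) (3 / 2)) + ε) T
      (f.eval ((m : ℕ) : ℤ)).natAbs} : ℝ) ≤
      #{m ∈ s | ¬ One (max 1 (min (2 - h) (3 / 2)) + ε / 2) T (f.eval ((m : ℕ) : ℤ)).natAbs} := by
    exact_mod_cast card_le_card (by
      intro n hn
      rw [mem_filter] at hn ⊢
      refine ⟨?_, fun h => hn.2 (One.mono hexp h)⟩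
      rw [hs, mem_filter]
      refine ⟨hn.1, fun h0 => hn.2 ?_⟩
      intro a b c d' hadm hc _ _
      rw [h0, Int.natAbs_zero, Int.natAbs_eq_zero] at hc
      exact absurd hc hadm.c_ne)
  refine h4.trans ?_
  rw [mul_one_div, div_le_iff₀ hM0] at h3
  have hlogM : 1 ≤ Real.log M := h2 M (by omega)
  have hlogX : Real.log M ≤ Real.log X := Real.log_le_log hM0 (by exact_mod_cast hXM)
  calc _ ≤ 1 / Real.log X ^ A * M := h3
    _ ≤ 1 / Real.log M ^ A * M := by gcongr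
    _ = M / Real.log M ^ A := by ring

end Pool.Agent.L7h6.BC
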