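import Pool.Agent.L7h6.BC.Thin

set_option autoImplicit false

/-! Random coefficients. -/

namespace Pool.Agent.L7h6.BC

open Finset
open Pool.Agent.Y883.T3 (ev_log_rpow)
open Pool.Agent.Y883.T5 (Admissible)
open Pool.Agent.Y883.T6

/-- The weights `w i`, `i ∈ s`, and the integers `c i` between `1` and `X`: the total weight of the `i` with
`c i = n` is at most `X ^ (-h)` for every `n`, and the total weight of the `i` for which `e` divides `c i` is at most
`C (log X) ^ B e ^ (-γ)` for every `e ≥ 1`. -/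
structure Spread {ι : Type} (h γ C : ℝ) (B X : ℕ) (s : Finset ι) (w : ι → ℝ) (c : ι → ℕ) : Prop where
  nonneg : ∀ i ∈ s, 0 ≤ w i
  range : ∀ i ∈ s, 1 ≤ c i ∧ c i ≤ X
  point : ∀ n : ℕ, ∑ i ∈ s with c i = n, w i ≤ (X : ℝ) ^ (-h)
  mult : ∀ e : ℕ, 1 ≤ e → ∑ i ∈ s with e ∣ c i, w i ≤ C * Real.log X ^ B * (e : ℝ) ^ (-γ)

/-- The same for two integers `u i` and `v i` between `1` and `X`: the total weight of the `i` with `u i = m` and
`v i = n` is at most `X ^ (-g)`, and that of the `i` for which `e` divides `u i` and `f` divides `v i` is at most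
`C (log X) ^ B (e f) ^ (-γ)`. -/
structure SpreadPair {ι : Type} (g γ C : ℝ) (B X : ℕ) (s : Finset ι) (w : ι → ℝ) (u v : ι → ℕ) : Prop where
  nonneg : ∀ i ∈ s, 0 ≤ w i
  range : ∀ i ∈ s, (1 ≤ u i ∧ u i ≤ X) ∧ 1 ≤ v i ∧ v i ≤ X
  point : ∀ m n : ℕ, ∑ i ∈ s with u i = m ∧ v i = n, w i ≤ (X : ℝ) ^ (-g)
  mult : ∀ e f : ℕ, 1 ≤ e → 1 ≤ f →
    ∑ i ∈ s with e ∣ u i ∧ f ∣ v i, w i ≤ C * Real.log X ^ B * ((e : ℝ) * f) ^ (-γ)

/-- all admissible equations with third coefficient `± n` and two other coefficients of at most `(log n) ^ T` have a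
solution in primes with the exponent `μ` -/
def One (μ : ℝ) (T n : ℕ) : Prop :=
  ∀ a b c d : ℤ, Admissible a b c d → c.natAbs = n →
    |(a : ℝ)| ≤ Real.log |(c : ℝ)| ^ T → |(b : ℝ)| ≤ Real.log |(c : ℝ)| ^ T → SmallSolution μ a b c d

/-- all admissible equations with the absolute values `l`, `m`, `n` of the coefficients have a solution in primes
with the exponent `μ` -/
def Three (μ : ℝ) (l m n : ℕ) : Prop :=
  ∀ a b c d : ℤ, Admissible a b c d → a.natAbs = l → b.natAbs = m → c.natAbs = n → SmallSolution μ a b c d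

lemma union_bound {ι κ : Type} (s : Finset ι) (w : ι → ℝ) (hw : ∀ i ∈ s, 0 ≤ w i) (E : Finset κ) (p : ι → Prop)
    [DecidablePred p] (q : κ → ι → Prop) [∀ e, DecidablePred (q e)] (h : ∀ i ∈ s, p i → ∃ e ∈ E, q e i) :
    ∑ i ∈ s with p i, w i ≤ ∑ e ∈ E, ∑ i ∈ s with q e i, w i := by
  have h1 : ∑ e ∈ E, ∑ i ∈ s with q e i, w i = ∑ i ∈ s, ∑ e ∈ E, if q e i then w i else 0 := by
    rw [sum_comm]
    exact sum_congr rfl fun e _ => sum_filter _ _
  rw [h1, sum_filter]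
  apply sum_le_sum
  intro i hi
  have h0 : ∀ e ∈ E, 0 ≤ if q e i then w i else 0 := by
    intro e _
    split_ifs
    · exact hw i hi
    · exact le_rfl
  by_cases hp : p i
  · rw [if_pos hp]
    obtain ⟨e, he, hq⟩ := h i hi hp
    refine le_trans ?_ (single_le_sum h0 he)
    rw [if_pos hq]
  · rw [if_neg hp]
    exact sum_nonneg h0

lemma or_bound {ι : Type} (s : Finset ι) (w : ι → ℝ) (hw : ∀ i ∈ s, 0 ≤ w i) (p q r : ι → Prop)
    [DecidablePred p] [DecidablePred q] [DecidablePred r] (h : ∀ i ∈ s, p i → q i ∨ r i) :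
    ∑ i ∈ s with p i, w i ≤ ∑ i ∈ s with q i, w i + ∑ i ∈ s with r i, w i := by
  rw [sum_filter, sum_filter, sum_filter, ← sum_add_distrib]
  apply sum_le_sum
  intro i hi
  have h0 := hw i hi
  have h1 := h i hi
  by_cases hp : p i
  · rw [if_pos hp]
    rcases h1 hp with h2 | h2
    · rw [if_pos h2]
      split_ifs <;> linarith
    · rw [if_pos h2]
      split_ifs <;> linarith
  · rw [if_neg hp]
    split_ifs <;> linarith

open Classical in
/-- a large divisor in a very sparse set is unlikely -/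
lemma mult_law {D : Set ℕ} (hD : ∀ ε : ℝ, 0 < ε → ∃ X₀ : ℕ, ∀ X : ℕ, X₀ ≤ X → (#(Up D X) : ℝ) ≤ (X : ℝ) ^ ε)
    (γ : ℝ) (hγ : 0 < γ) :
    ∃ B₀ : ℝ, 0 < B₀ ∧ ∀ (ι : Type) (h C : ℝ) (B X : ℕ) (s : Finset ι) (w : ι → ℝ) (c : ι → ℕ), 1 ≤ X →
      Spread h γ C B X s w c → ∀ G : ℝ, 0 < G →
      ∑ i ∈ s with (∃ e ∈ D, G < (e : ℝ) ∧ e ∣ c i), w i ≤ B₀ * (|C| + 1) * Real.log X ^ B * G ^ (-(γ / 2)) := by
  obtain ⟨B₀, hB0, hB⟩ := sum_small hD (γ / 2) (by positivity)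
  refine ⟨B₀, hB0, fun ι h C B X s w c hX hS G hG => ?_⟩
  have hL0 : 0 ≤ Real.log X := Real.log_nonneg (by exact_mod_cast hX)
  obtain ⟨E, hE⟩ : ∃ E : Finset ℕ, E = (Icc 1 X).filter (fun e => e ∈ D ∧ G < (e : ℝ)) := ⟨_, rfl⟩
  have hE' : ∀ e ∈ E, e ∈ D ∧ 1 ≤ e := by
    intro e he
    rw [hE, mem_filter, mem_Icc] at he
    exact ⟨he.2.1, he.1.1⟩
  refine (union_bound s w hS.nonneg E _ (fun e i => e ∣ c i) ?_).trans ?_
  · rintro i hi ⟨e, h5, h6, h7⟩
    obtain ⟨h1, h2⟩ := hS.range i hi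
    refine ⟨e, ?_, h7⟩
    rw [hE, mem_filter, mem_Icc]
    exact ⟨⟨Nat.pos_of_dvd_of_pos h7 h1, (Nat.le_of_dvd h1 h7).trans h2⟩, h5, h6⟩
  · calc _ ≤ ∑ e ∈ E, ((|C| + 1) * Real.log X ^ B * G ^ (-(γ / 2))) * (e : ℝ) ^ (-(γ / 2)) := by
          apply sum_le_sum
          intro e he
          have he1 := (hE' e he).2
          have he0 : (0 : ℝ) < e := by exact_mod_cast he1
          have heG : G < (e : ℝ) := by
            rw [hE, mem_filter] at he
            exact he.2.2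
          have h5 : (e : ℝ) ^ (-(γ / 2)) ≤ G ^ (-(γ / 2)) := Real.rpow_le_rpow_of_nonpos hG heG.le (by linarith)
          have h6 : (e : ℝ) ^ (-γ) = (e : ℝ) ^ (-(γ / 2)) * (e : ℝ) ^ (-(γ / 2)) := by
            rw [← Real.rpow_add he0]
            congr 1
            ring
          have h7 : C ≤ |C| + 1 := by
            have := le_abs_self C
            linarith
          calc _ ≤ C * Real.log X ^ B * (e : ℝ) ^ (-γ) := hS.mult e he1
            _ ≤ (|C| + 1) * Real.log X ^ B * (e : ℝ) ^ (-γ) := by gcongr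
            _ = (|C| + 1) * Real.log X ^ B * (e : ℝ) ^ (-(γ / 2)) * (e : ℝ) ^ (-(γ / 2)) := by
                rw [h6]
                ring
            _ ≤ _ := by gcongr
      _ = ((|C| + 1) * Real.log X ^ B * G ^ (-(γ / 2))) * ∑ e ∈ E, (e : ℝ) ^ (-(γ / 2)) := by rw [mul_sum]
      _ ≤ ((|C| + 1) * Real.log X ^ B * G ^ (-(γ / 2))) * B₀ := by
          apply mul_le_mul_of_nonneg_left (hB E hE')
          positivity
      _ = B₀ * (|C| + 1) * Real.log X ^ B * G ^ (-(γ / 2)) := by ring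

open Classical in
/-- a product with a large divisor in a very sparse set is unlikely -/
lemma pair_law {D : Set ℕ} (hD : ∀ ε : ℝ, 0 < ε → ∃ X₀ : ℕ, ∀ X : ℕ, X₀ ≤ X → (#(Up D X) : ℝ) ≤ (X : ℝ) ^ ε)
    (γ : ℝ) (hγ : 0 < γ) :
    ∃ B₀ : ℝ, 0 < B₀ ∧ ∀ (ι : Type) (g C : ℝ) (B X : ℕ) (s : Finset ι) (w : ι → ℝ) (u v : ι → ℕ), 1 ≤ X →
      SpreadPair g γ C B X s w u v → ∀ G : ℝ, 0 < G →
      ∑ i ∈ s with (∃ e ∈ D, G < (e : ℝ) ∧ e ∣ u i * v i), w i ≤
        B₀ * (|C| + 1) * Real.log X ^ B * G ^ (-(γ / 4)) := by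
  obtain ⟨B₁, hB1, hB⟩ := sum_small hD (γ / 2) (by positivity)
  obtain ⟨τ, hτ0, hτ⟩ := Pool.Agent.Helper112.divisor_bound (γ / 4) (by positivity)
  refine ⟨τ * B₁, by positivity, fun ι g C B X s w u v hX hS G hG => ?_⟩
  have hL0 : 0 ≤ Real.log X := Real.log_nonneg (by exact_mod_cast hX)
  obtain ⟨E, hE⟩ : ∃ E : Finset ℕ, E = (Icc 1 (X * X)).filter (fun e => e ∈ D ∧ G < (e : ℝ)) := ⟨_, rfl⟩
  have hE' : ∀ e ∈ E, e ∈ D ∧ 1 ≤ e := by
    intro e he
    rw [hE, mem_filter, mem_Icc] at he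
    exact ⟨he.2.1, he.1.1⟩
  refine (union_bound s w hS.nonneg E _ (fun e i => ∃ f ∈ e.divisors, f ∣ u i ∧ e / f ∣ v i) ?_).trans ?_
  · rintro i hi ⟨e, h5, h6, h7⟩
    obtain ⟨⟨u1, u2⟩, v1, v2⟩ := hS.range i hi
    have huv : 0 < u i * v i := Nat.mul_pos u1 v1
    have he1 : 1 ≤ e := Nat.pos_of_dvd_of_pos h7 huv
    obtain ⟨f, g, f1, g1, hfg⟩ := (Nat.dvd_mul).1 h7
    have hf1 : 1 ≤ f := Nat.pos_of_dvd_of_pos f1 u1
    refine ⟨e, ?_, f, ?_, f1, ?_⟩
    · rw [hE, mem_filter, mem_Icc]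
      exact ⟨⟨he1, (Nat.le_of_dvd huv h7).trans (Nat.mul_le_mul u2 v2)⟩, h5, h6⟩
    · rw [Nat.mem_divisors]
      exact ⟨⟨g, hfg.symm⟩, by omega⟩
    · have : e / f = g := by
        rw [← hfg]
        exact Nat.mul_div_cancel_left g hf1
      rw [this]
      exact g1
  · have h8 : C ≤ |C| + 1 := by
      have := le_abs_self C
      linarith
    calc _ ≤ ∑ e ∈ E, (τ * (|C| + 1) * Real.log X ^ B * G ^ (-(γ / 4))) * (e : ℝ) ^ (-(γ / 2)) := by
          apply sum_le_sum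
          intro e he
          have he1 := (hE' e he).2
          have he0 : (0 : ℝ) < e := by exact_mod_cast he1
          have heG : G < (e : ℝ) := by
            rw [hE, mem_filter] at he
            exact he.2.2
          refine (union_bound s w hS.nonneg e.divisors _ (fun f i => f ∣ u i ∧ e / f ∣ v i)
            (fun i _ h => h)).trans ?_
          have hf : ∀ f ∈ e.divisors, ∑ i ∈ s with f ∣ u i ∧ e / f ∣ v i, w i ≤
              (|C| + 1) * Real.log X ^ B * (e : ℝ) ^ (-γ) := by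
            intro f hf
            have hfe := Nat.dvd_of_mem_divisors hf
            have hf1 : 1 ≤ f := Nat.pos_of_mem_divisors hf
            have hg1 : 1 ≤ e / f := Nat.div_pos (Nat.le_of_dvd he1 hfe) hf1
            refine (hS.mult f (e / f) hf1 hg1).trans ?_
            have a5 : (f : ℝ) * ((e / f : ℕ) : ℝ) = (e : ℝ) := by
              exact_mod_cast Nat.mul_div_cancel' hfe
            rw [a5]
            gcongr
          refine (sum_le_sum hf).trans ?_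
          rw [sum_const, nsmul_eq_mul]
          have h5 : (e : ℝ) ^ (-(γ / 4)) ≤ G ^ (-(γ / 4)) := Real.rpow_le_rpow_of_nonpos hG heG.le (by linarith)
          have h6 : (e : ℝ) ^ (γ / 4) * (e : ℝ) ^ (-γ) = (e : ℝ) ^ (-(γ / 4)) * (e : ℝ) ^ (-(γ / 2)) := by
            rw [← Real.rpow_add he0, ← Real.rpow_add he0]
            congr 1
            ring
          calc _ ≤ (τ * (e : ℝ) ^ (γ / 4)) * ((|C| + 1) * Real.log X ^ B * (e : ℝ) ^ (-γ)) :=
                mul_le_mul_of_nonneg_right (hτ e he1) (by positivity)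
            _ = τ * (|C| + 1) * Real.log X ^ B * ((e : ℝ) ^ (γ / 4) * (e : ℝ) ^ (-γ)) := by ring
            _ = τ * (|C| + 1) * Real.log X ^ B * (e : ℝ) ^ (-(γ / 4)) * (e : ℝ) ^ (-(γ / 2)) := by
                rw [h6]
                ring
            _ ≤ _ := by gcongr
      _ = (τ * (|C| + 1) * Real.log X ^ B * G ^ (-(γ / 4))) * ∑ e ∈ E, (e : ℝ) ^ (-(γ / 2)) := by
          rw [mul_sum]
      _ ≤ (τ * (|C| + 1) * Real.log X ^ B * G ^ (-(γ / 4))) * B₁ := by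
          apply mul_le_mul_of_nonneg_left (hB E hE')
          positivity
      _ = τ * B₁ * (|C| + 1) * Real.log X ^ B * G ^ (-(γ / 4)) := by ring

/-- a large greatest common divisor is unlikely -/
lemma gcd_law (γ : ℝ) (hγ : 1 / 2 < γ) :
    ∃ B₀ : ℝ, 0 < B₀ ∧ ∀ (ι : Type) (g C : ℝ) (B X : ℕ) (s : Finset ι) (w : ι → ℝ) (u v : ι → ℕ), 1 ≤ X →
      SpreadPair g γ C B X s w u v → ∀ G : ℝ, 0 < G →
      ∑ i ∈ s with G < (Nat.gcd (u i) (v i) : ℕ), w i ≤
        B₀ * (|C| + 1) * Real.log X ^ B * G ^ (-(γ - 1 / 2)) := by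
  classical
  have hsum : Summable (fun n : ℕ => (n : ℝ) ^ (-(γ + 1 / 2))) := by
    rw [Real.summable_nat_rpow]
    linarith
  obtain ⟨B₁, hB⟩ : ∃ B₁ : ℝ, B₁ = ∑' n : ℕ, (n : ℝ) ^ (-(γ + 1 / 2)) := ⟨_, rfl⟩
  have hB0 : 0 ≤ B₁ := by
    rw [hB]
    exact tsum_nonneg (fun n => by positivity)
  refine ⟨B₁ + 1, by positivity, fun ι g C B X s w u v hX hS G hG => ?_⟩
  have hL0 : 0 ≤ Real.log X := Real.log_nonneg (by exact_mod_cast hX)
  obtain ⟨E, hE⟩ : ∃ E : Finset ℕ, E = (Icc 1 X).filter (fun e : ℕ => G < (e : ℝ)) := ⟨_, rfl⟩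
  refine (union_bound s w hS.nonneg E _ (fun e i => e ∣ u i ∧ e ∣ v i) ?_).trans ?_
  · intro i hi h7
    obtain ⟨⟨u1, u2⟩, v1, v2⟩ := hS.range i hi
    refine ⟨Nat.gcd (u i) (v i), ?_, Nat.gcd_dvd_left _ _, Nat.gcd_dvd_right _ _⟩
    rw [hE, mem_filter, mem_Icc]
    exact ⟨⟨Nat.gcd_pos_of_pos_left _ u1, (Nat.gcd_le_left _ u1).trans u2⟩, h7⟩
  · have h8 : C ≤ |C| + 1 := by
      have := le_abs_self C
      linarith
    calc _ ≤ ∑ e ∈ E, ((|C| + 1) * Real.log X ^ B * G ^ (-(γ - 1 / 2))) * (e : ℝ) ^ (-(γ + 1 / 2)) := by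
          apply sum_le_sum
          intro e he
          rw [hE, mem_filter, mem_Icc] at he
          obtain ⟨⟨he1, -⟩, heG⟩ := he
          have he0 : (0 : ℝ) < e := by exact_mod_cast he1
          have a5 : ((e : ℝ) * e) ^ (-γ) = (e : ℝ) ^ (-(γ - 1 / 2)) * (e : ℝ) ^ (-(γ + 1 / 2)) := by
            rw [Real.mul_rpow he0.le he0.le, ← Real.rpow_add he0, ← Real.rpow_add he0]
            congr 1
            ring
          have h5 : (e : ℝ) ^ (-(γ - 1 / 2)) ≤ G ^ (-(γ - 1 / 2)) :=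
            Real.rpow_le_rpow_of_nonpos hG heG.le (by linarith)
          calc _ ≤ C * Real.log X ^ B * ((e : ℝ) * e) ^ (-γ) := hS.mult e e he1 he1
            _ ≤ (|C| + 1) * Real.log X ^ B * ((e : ℝ) * e) ^ (-γ) := by gcongr
            _ = (|C| + 1) * Real.log X ^ B * (e : ℝ) ^ (-(γ - 1 / 2)) * (e : ℝ) ^ (-(γ + 1 / 2)) := by
                rw [a5]
                ring
            _ ≤ _ := by gcongr
      _ = ((|C| + 1) * Real.log X ^ B * G ^ (-(γ - 1 / 2))) * ∑ e ∈ E, (e : ℝ) ^ (-(γ + 1 / 2)) := by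
          rw [mul_sum]
      _ ≤ ((|C| + 1) * Real.log X ^ B * G ^ (-(γ - 1 / 2))) * (B₁ + 1) := by
          apply mul_le_mul_of_nonneg_left _ (by positivity)
          have : ∑ e ∈ E, (e : ℝ) ^ (-(γ + 1 / 2)) ≤ B₁ := by
            rw [hB]
            exact hsum.sum_le_tsum _ (fun i _ => by positivity)
          linarith
      _ = (B₁ + 1) * (|C| + 1) * Real.log X ^ B * G ^ (-(γ - 1 / 2)) := by ring

open Classical in
/-- a product in a thin set is unlikely -/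
lemma mem_law (ε : ℝ) (hε : 0 < ε) :
    ∃ B₀ : ℝ, 0 < B₀ ∧ ∀ (ι : Type) (g γ C : ℝ) (B X : ℕ) (s : Finset ι) (w : ι → ℝ) (u v : ι → ℕ) (F : Set ℕ),
      1 ≤ X → SpreadPair g γ C B X s w u v →
      ∑ i ∈ s with u i * v i ∈ F, w i ≤
        B₀ * (X : ℝ) ^ ε * (((Icc 1 (X * X)).filter (fun q => q ∈ F)).card : ℝ) * (X : ℝ) ^ (-g) := by
  obtain ⟨τ, hτ0, hτ⟩ := Pool.Agent.Helper112.divisor_bound (ε / 2) (by positivity)
  refine ⟨τ, hτ0, fun ι g γ C B X s w u v F hX hS => ?_⟩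
  have hX0 : (0 : ℝ) < X := by exact_mod_cast hX
  refine (union_bound s w hS.nonneg ((Icc 1 (X * X)).filter (fun q => q ∈ F)) _
    (fun q i => ∃ f ∈ q.divisors, u i = f ∧ v i = q / f) ?_).trans ?_
  · intro i hi h7
    obtain ⟨⟨u1, u2⟩, v1, v2⟩ := hS.range i hi
    have huv : 0 < u i * v i := Nat.mul_pos u1 v1
    refine ⟨u i * v i, ?_, u i, ?_, rfl, (Nat.mul_div_cancel_left _ u1).symm⟩
    · rw [mem_filter, mem_Icc]
      exact ⟨⟨huv, Nat.mul_le_mul u2 v2⟩, h7⟩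
    · rw [Nat.mem_divisors]
      exact ⟨Nat.dvd_mul_right _ _, huv.ne'⟩
  · calc _ ≤ ∑ q ∈ (Icc 1 (X * X)).filter (fun q => q ∈ F), (τ * (X : ℝ) ^ ε) * (X : ℝ) ^ (-g) := by
          apply sum_le_sum
          intro q hq
          rw [mem_filter, mem_Icc] at hq
          refine (union_bound s w hS.nonneg q.divisors _ (fun f i => u i = f ∧ v i = q / f)
            (fun i _ h => h)).trans ?_
          refine (sum_le_sum fun f _ => hS.point f (q / f)).trans ?_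
          rw [sum_const, nsmul_eq_mul]
          apply mul_le_mul_of_nonneg_right _ (by positivity)
          refine (hτ q hq.1.1).trans ?_
          apply mul_le_mul_of_nonneg_left _ hτ0.le
          have h1 : (q : ℝ) ≤ (X : ℝ) ^ (2 : ℝ) := by
            rw [Real.rpow_two, sq]
            exact_mod_cast hq.1.2
          calc (q : ℝ) ^ (ε / 2) ≤ ((X : ℝ) ^ (2 : ℝ)) ^ (ε / 2) :=
                Real.rpow_le_rpow (Nat.cast_nonneg _) h1 (by positivity)
            _ = (X : ℝ) ^ ε := by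
                rw [← Real.rpow_mul hX0.le]
                congr 1
                ring
      _ = _ := by
          rw [sum_const, nsmul_eq_mul]
          ring

end Pool.Agent.L7h6.BC
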