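import Pool.Agent.L7h6.BC.Law

set_option autoImplicit false

/-! Random coefficients: the theorems. -/

namespace Pool.Agent.L7h6.BC

open Finset
open Pool.Agent.Y883.T3 (ev_log_rpow)
open Pool.Agent.Y883.T5 (Admissible)
open Pool.Agent.Y883.T6

open Classical in
theorem one_law (h γ C ε : ℝ) (hh : 0 < h) (hγ : 0 < γ) (hε : 0 < ε) (B A T : ℕ) :
    ∃ X₀ : ℕ, ∀ X : ℕ, X₀ ≤ X → ∀ (ι : Type) (s : Finset ι) (w : ι → ℝ) (c : ι → ℕ), Spread h γ C B X s w c →
      ∑ i ∈ s with ¬ One (max 1 (min (2 - h) (3 / 2)) + ε) T (c i), w i ≤ 1 / Real.log X ^ A := by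
  obtain ⟨D, -, hD, hmain⟩ := one6
  obtain ⟨K, hK⟩ := exists_nat_ge (2 * ((A : ℝ) + B + 2) / γ)
  obtain ⟨θ, hθ⟩ : ∃ θ : ℝ, θ = max 1 (min (2 - h) (3 / 2)) + ε := ⟨_, rfl⟩
  have hθ1 : 1 + ε ≤ θ := by
    rw [hθ]
    linarith [le_max_left 1 (min (2 - h) (3 / 2))]
  have hθ2 : min (2 - h) (3 / 2) + ε ≤ θ := by
    rw [hθ]
    linarith [le_max_right 1 (min (2 - h) (3 / 2))]
  rw [← hθ]
  obtain ⟨c₀, F, hF1, hF2, hF3⟩ := hmain θ (by linarith) (ε / 2) (by positivity) (T + K)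
  obtain ⟨B₀, hB0, hB⟩ := mult_law hD γ hγ
  obtain ⟨N₁, h1⟩ := ev_log_rpow (A + 1) 1 (h / 2) (by positivity)
  obtain ⟨N₂, h2⟩ := ev_log_rpow (A + 1) 1 (ε / 2) (by positivity)
  obtain ⟨N₃, hN3, h3⟩ := log_ge (2 / h + B₀ * (|C| + 1) * (2 / h) ^ (A + B + 2) + 3)
  obtain ⟨N₄, h4⟩ := exists_nat_ge ((c₀ : ℝ) ^ (2 / h))
  refine ⟨c₀ + N₁ + N₂ + N₃ + N₄ + 1, fun X hX ι s w c hS => ?_⟩
  have hX1 : 1 ≤ X := by omega
  have hX0 : (0 : ℝ) < X := by exact_mod_cast hX1
  have hX1r : (1 : ℝ) ≤ X := by exact_mod_cast hX1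
  obtain ⟨L, hL⟩ : ∃ L, L = Real.log X := ⟨_, rfl⟩
  have hLb := h3 X (by omega)
  rw [← hL] at hLb ⊢
  have h2A : (0 : ℝ) < B₀ * (|C| + 1) * (2 / h) ^ (A + B + 2) := by positivity
  have h2h : (0 : ℝ) < 2 / h := by positivity
  have hL3 : 3 ≤ L := by linarith
  have hL0 : 0 < L := by linarith
  have hLA : 0 < L ^ (A + 1) := by positivity
  obtain ⟨Z, hZ⟩ : ∃ Z : ℝ, Z = 1 / L ^ (A + 1) := ⟨_, rfl⟩
  have hZ0 : 0 ≤ Z := by rw [hZ]; positivity
  obtain ⟨G, hG⟩ : ∃ G : ℝ, G = (h / 2 * L) ^ K := ⟨_, rfl⟩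
  have hhL : 1 ≤ h / 2 * L := by
    have : 2 / h ≤ L := by linarith
    rw [div_le_iff₀ hh] at this
    linarith
  have hG0 : 0 < G := by rw [hG]; positivity
  obtain ⟨Q, hQ⟩ : ∃ Q : ℕ, Q = ⌊(X : ℝ) ^ (h / 2)⌋₊ := ⟨_, rfl⟩
  have hQr : (Q : ℝ) ≤ (X : ℝ) ^ (h / 2) := by rw [hQ]; exact Nat.floor_le (by positivity)
  -- the three exceptional events
  have b1 : ∑ i ∈ s with c i ≤ Q, w i ≤ Z := by
    refine (union_bound s w hS.nonneg (Icc 1 Q) _ (fun n i => c i = n) ?_).trans ?_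
    · intro i hi hc
      exact ⟨c i, mem_Icc.2 ⟨(hS.range i hi).1, hc⟩, rfl⟩
    · refine (sum_le_sum fun n _ => hS.point n).trans ?_
      rw [sum_const, Nat.card_Icc, Nat.add_sub_cancel, nsmul_eq_mul, hZ, le_div_iff₀ hLA]
      have h5 := h1 X (by omega)
      rw [one_mul, ← hL] at h5
      calc (Q : ℝ) * (X : ℝ) ^ (-h) * L ^ (A + 1) ≤ (X : ℝ) ^ (h / 2) * (X : ℝ) ^ (-h) * (X : ℝ) ^ (h / 2) := by
            gcongr
        _ = (X : ℝ) ^ (h / 2 + -h + h / 2) := by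
            rw [← Real.rpow_add hX0, ← Real.rpow_add hX0]
        _ = 1 := by
            have : h / 2 + -h + h / 2 = 0 := by ring
            rw [this, Real.rpow_zero]
        _ ≤ 1 := le_rfl
  have b2 : ∑ i ∈ s with (∃ e ∈ D, G < (e : ℝ) ∧ e ∣ c i), w i ≤ Z := by
    refine (hB ι h C B X s w c hX1 hS G hG0).trans ?_
    rw [← hL]
    have h6 : G ^ (-(γ / 2)) ≤ (h / 2 * L) ^ (-((A + B + 2 : ℕ) : ℝ)) := by
      rw [hG, ← Real.rpow_natCast, ← Real.rpow_mul (by positivity)]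
      apply Real.rpow_le_rpow_of_exponent_le hhL
      have h7 : (A : ℝ) + B + 2 ≤ K * (γ / 2) := by
        rw [div_le_iff₀ hγ] at hK
        linarith
      push_cast
      linarith
    rw [Real.rpow_neg (show (0 : ℝ) ≤ h / 2 * L by positivity), Real.rpow_natCast] at h6
    have h7 : ((h / 2 * L) ^ (A + B + 2))⁻¹ = (2 / h) ^ (A + B + 2) / L ^ (A + B + 2) := by
      rw [mul_pow, mul_inv, ← inv_pow, inv_div]
      rfl
    calc B₀ * (|C| + 1) * L ^ B * G ^ (-(γ / 2)) ≤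
          B₀ * (|C| + 1) * L ^ B * ((2 / h) ^ (A + B + 2) / L ^ (A + B + 2)) := by
          rw [← h7]
          exact mul_le_mul_of_nonneg_left h6 (by positivity)
      _ = (B₀ * (|C| + 1) * (2 / h) ^ (A + B + 2)) * (1 / L ^ (A + 2)) := by
          have : L ^ (A + B + 2) = L ^ B * L ^ (A + 2) := by ring
          rw [this]
          field_simp
      _ ≤ L * (1 / L ^ (A + 2)) := mul_le_mul_of_nonneg_right (by linarith) (by positivity)
      _ = Z := by
          rw [hZ, pow_succ L (A + 1)]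
          field_simp
  have b3 : ∑ i ∈ s with c i ∈ F, w i ≤ Z := by
    refine (union_bound s w hS.nonneg ((Icc 1 X).filter (fun n => n ∈ F)) _ (fun n i => c i = n) ?_).trans ?_
    · intro i hi hc
      refine ⟨c i, ?_, rfl⟩
      rw [mem_filter, mem_Icc]
      exact ⟨hS.range i hi, hc⟩
    · refine (sum_le_sum fun n _ => hS.point n).trans ?_
      rw [sum_const, nsmul_eq_mul]
      rcases le_or_gt θ (3 / 2) with h5 | h5
      · have h6 : 2 - h + ε ≤ θ := by
          rcases le_total (2 - h) (3 / 2) with h7 | h7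
          · rw [min_eq_left h7] at hθ2
            exact hθ2
          · rw [min_eq_right h7] at hθ2
            linarith
        rw [hZ, le_div_iff₀ hLA]
        have h7 := h2 X (by omega)
        rw [one_mul, ← hL] at h7
        calc _ ≤ (X : ℝ) ^ (2 - θ + ε / 2) * (X : ℝ) ^ (-h) * (X : ℝ) ^ (ε / 2) := by
              gcongr
              exact hF1 X (by omega)
          _ = (X : ℝ) ^ (2 - θ + ε / 2 + -h + ε / 2) := by
              rw [← Real.rpow_add hX0, ← Real.rpow_add hX0]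
          _ ≤ (X : ℝ) ^ (0 : ℝ) := Real.rpow_le_rpow_of_exponent_le hX1r (by linarith)
          _ = 1 := Real.rpow_zero _
      · have h6 : (Icc 1 X).filter (fun n => n ∈ F) = ∅ := by
          rw [filter_eq_empty_iff]
          intro x _ hx
          rw [hF2 h5] at hx
          exact hx
        rw [h6, card_empty, Nat.cast_zero, zero_mul]
        exact hZ0
  have hbad : ∑ i ∈ s with ¬ One θ T (c i), w i ≤ Z + (Z + Z) := by
    refine (or_bound s w hS.nonneg _ (fun i => c i ≤ Q)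
      (fun i => (∃ e ∈ D, G < (e : ℝ) ∧ e ∣ c i) ∨ c i ∈ F) ?_).trans (add_le_add b1
        ((or_bound s w hS.nonneg _ _ _ (fun i _ h => h)).trans (add_le_add b2 b3)))
    intro i hi hn
    by_contra hcon
    push Not at hcon
    obtain ⟨g1, g2, g3⟩ := hcon
    obtain ⟨n, hndef⟩ : ∃ n, n = c i := ⟨_, rfl⟩
    obtain ⟨n1, n2⟩ := hS.range i hi
    rw [← hndef] at n1 n2 g1 g2 g3 hn
    have hn0 : (0 : ℝ) < n := by exact_mod_cast n1
    have hXn : (X : ℝ) ^ (h / 2) ≤ n := by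
      have := Nat.lt_of_floor_lt (a := (X : ℝ) ^ (h / 2)) (n := n) (by rw [← hQ]; exact g1)
      exact this.le
    have hlog : h / 2 * L ≤ Real.log n := by
      have h5 := Real.log_le_log (by positivity) hXn
      rw [Real.log_rpow hX0, ← hL] at h5
      exact h5
    have hlog1 : 1 ≤ Real.log n := by linarith
    have hcn : c₀ ≤ n := by
      have h5 : (c₀ : ℝ) ≤ (X : ℝ) ^ (h / 2) := by
        have h6 : (c₀ : ℝ) ^ (2 / h) ≤ X := h4.trans (by exact_mod_cast (by omega : N₄ ≤ X))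
        calc (c₀ : ℝ) = ((c₀ : ℝ) ^ (2 / h)) ^ (h / 2) := by
              rw [← Real.rpow_mul (Nat.cast_nonneg _)]
              have : 2 / h * (h / 2) = 1 := by field_simp
              rw [this, Real.rpow_one]
          _ ≤ (X : ℝ) ^ (h / 2) := Real.rpow_le_rpow (by positivity) h6 (by positivity)
      exact_mod_cast h5.trans hXn
    apply hn
    intro a b c d hadm hcn' ha hb
    have hnr : |(c : ℝ)| = (n : ℝ) := by
      rw [← hcn', Nat.cast_natAbs]
      push_cast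
      rfl
    have hTT : Real.log |(c : ℝ)| ^ T ≤ Real.log |(c : ℝ)| ^ (T + K) := by
      rw [hnr]
      exact pow_le_pow_right₀ hlog1 (by omega)
    obtain ⟨p, q, r, s1, s2, s3, s4, s5⟩ := hF3 a b c d hadm (by rw [hcn']; exact hcn) (by rw [hcn']; exact g3) (by
      intro e he heL hdvd
      rw [Int.natCast_dvd, hcn'] at hdvd
      refine g2 e he ?_ hdvd
      refine lt_of_le_of_lt ?_ heL
      rw [hnr, hG]
      calc (h / 2 * L) ^ K ≤ Real.log n ^ K := pow_le_pow_left₀ (by positivity) hlog _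
        _ ≤ Real.log n ^ (T + K) := pow_le_pow_right₀ hlog1 (by omega)) (ha.trans hTT) (hb.trans hTT)
    refine ⟨p, q, r, s1, s2, s3, s4, s5.trans ?_⟩
    have h6 : |(c : ℝ)| ≤ ((max 3 (max |a| (max |b| |c|)) : ℤ) : ℝ) := by
      rw [← Int.cast_abs]
      exact_mod_cast ((le_max_right _ _).trans (le_max_right _ _)).trans (le_max_right _ _)
    have h7 := Real.rpow_le_rpow (abs_nonneg _) h6 (by linarith : 0 ≤ θ)
    linarith
  have hfin : 3 * Z ≤ 1 / L ^ A := by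
    have e1 : 1 / L ^ A = L * Z := by
      rw [hZ, pow_succ L A]
      field_simp
    rw [e1]
    exact mul_le_mul_of_nonneg_right hL3 hZ0
  linarith

end Pool.Agent.L7h6.BC
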