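import Pool.Agent.Y883.T6.One6

set_option autoImplicit false

/-! Thin sets of coefficients: counting. -/

namespace Pool.Agent.L7h6.BC

open Finset
open Pool.Agent.Y883.T3 (ev_log_rpow)

open Classical in
/-- the positive members of `S` up to `X` -/
noncomputable def Up (S : Set ℕ) (X : ℕ) : Finset ℕ := (Icc 1 X).filter (fun n => n ∈ S)

open Classical in
/-- `S` has at least `X ^ (α - o(1))` members up to `X`, and the number of those which are multiples of `e` is at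
most `C` times `e ^ (-δ)` times the number of all of them. -/
structure Thin (S : Set ℕ) (α δ : ℝ) : Prop where
  lower : ∀ ε : ℝ, 0 < ε → ∃ X₀ : ℕ, ∀ X : ℕ, X₀ ≤ X → (X : ℝ) ^ (α - ε) ≤ (#(Up S X) : ℝ)
  mult : ∃ (C : ℝ) (X₀ : ℕ), ∀ X e : ℕ, X₀ ≤ X → 1 ≤ e →
    (#((Up S X).filter (fun n => e ∣ n)) : ℝ) ≤ C * (#(Up S X) : ℝ) * (e : ℝ) ^ (-δ)

lemma mem_Up {S : Set ℕ} {X n : ℕ} : n ∈ Up S X ↔ (1 ≤ n ∧ n ≤ X) ∧ n ∈ S := by
  classical
  unfold Up
  rw [mem_filter, mem_Icc]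

/-- a sum over a very sparse set -/
lemma sum_small {D : Set ℕ} (hD : ∀ ε : ℝ, 0 < ε → ∃ X₀ : ℕ, ∀ X : ℕ, X₀ ≤ X → (#(Up D X) : ℝ) ≤ (X : ℝ) ^ ε)
    (δ : ℝ) (hδ : 0 < δ) :
    ∃ B : ℝ, 0 < B ∧ ∀ S : Finset ℕ, (∀ e ∈ S, e ∈ D ∧ 1 ≤ e) → ∑ e ∈ S, (e : ℝ) ^ (-δ) ≤ B := by
  obtain ⟨X₀, hX₀⟩ := hD (δ / 2) (by positivity)
  obtain ⟨r, hr⟩ : ∃ r : ℝ, r = (2 : ℝ) ^ (-(δ / 2)) := ⟨_, rfl⟩
  have hr0 : 0 < r := by rw [hr]; positivity
  have hr1 : r < 1 := by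
    rw [hr]
    exact Real.rpow_lt_one_of_one_lt_of_neg (by norm_num) (by linarith)
  obtain ⟨c, hc⟩ : ∃ c : ℝ, c = (X₀ : ℝ) + (2 : ℝ) ^ (δ / 2) := ⟨_, rfl⟩
  have hc0 : 0 < c := by rw [hc]; positivity
  refine ⟨c * (1 - r)⁻¹, mul_pos hc0 (inv_pos.2 (by linarith)), fun S hS => ?_⟩
  obtain ⟨K, hK⟩ : ∃ K, K = S.sup (fun e => Nat.log 2 e) + 1 := ⟨_, rfl⟩
  have hmaps : ∀ e ∈ S, Nat.log 2 e ∈ range K := by
    intro e he
    rw [mem_range, hK]
    have h0 : Nat.log 2 e ≤ S.sup (fun e => Nat.log 2 e) := le_sup (f := fun e => Nat.log 2 e) he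
    omega
  rw [← sum_fiberwise_of_maps_to hmaps]
  have h1 : ∀ k ∈ range K, ∑ e ∈ S.filter (fun e => Nat.log 2 e = k), (e : ℝ) ^ (-δ) ≤ c * r ^ k := by
    intro k _
    have h2 : ∀ e ∈ S.filter (fun e => Nat.log 2 e = k), (e : ℝ) ^ (-δ) ≤ ((2 : ℝ) ^ k) ^ (-δ) := by
      intro e he
      rw [mem_filter] at he
      apply Real.rpow_le_rpow_of_nonpos (by positivity) _ (by linarith)
      have h3 : 2 ^ (Nat.log 2 e) ≤ e := Nat.pow_log_le_self 2 (by have := (hS e he.1).2; omega)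
      rw [he.2] at h3
      exact_mod_cast h3
    refine (sum_le_sum h2).trans ?_
    rw [sum_const, nsmul_eq_mul]
    have hsub : S.filter (fun e => Nat.log 2 e = k) ⊆ Up D (2 ^ (k + 1)) := by
      intro e he
      rw [mem_filter] at he
      have h5 : e < 2 ^ (Nat.log 2 e + 1) := Nat.lt_pow_succ_log_self (by norm_num) e
      rw [he.2] at h5
      exact mem_Up.2 ⟨⟨(hS e he.1).2, h5.le⟩, (hS e he.1).1⟩
    have h4 : (#(S.filter (fun e => Nat.log 2 e = k)) : ℝ) ≤ #(Up D (2 ^ (k + 1))) := by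
      exact_mod_cast card_le_card hsub
    have e0 : (1 : ℝ) ≤ ((2 : ℝ) ^ k) ^ (δ / 2) := Real.one_le_rpow (one_le_pow₀ (by norm_num)) (by positivity)
    have h5 : (#(Up D (2 ^ (k + 1))) : ℝ) ≤ c * ((2 : ℝ) ^ k) ^ (δ / 2) := by
      rcases le_or_gt X₀ (2 ^ (k + 1)) with h | h
      · refine (hX₀ _ h).trans ?_
        push_cast
        rw [pow_succ, Real.mul_rpow (by positivity) (by norm_num), mul_comm]
        apply mul_le_mul_of_nonneg_right _ (by positivity)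
        rw [hc]
        have : (0 : ℝ) ≤ X₀ := Nat.cast_nonneg _
        linarith
      · have h6 : #(Up D (2 ^ (k + 1))) ≤ X₀ := by
          have : Up D (2 ^ (k + 1)) ⊆ Icc 1 X₀ := by
            intro e he
            have := mem_Up.1 he
            rw [mem_Icc]
            omega
          refine (card_le_card this).trans ?_
          rw [Nat.card_Icc]
          omega
        have h7 : (#(Up D (2 ^ (k + 1))) : ℝ) ≤ X₀ := by exact_mod_cast h6
        have h8 : (X₀ : ℝ) ≤ c := by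
          rw [hc]
          have : (0 : ℝ) < (2 : ℝ) ^ (δ / 2) := by positivity
          linarith
        calc (#(Up D (2 ^ (k + 1))) : ℝ) ≤ c * 1 := by linarith
          _ ≤ c * ((2 : ℝ) ^ k) ^ (δ / 2) := mul_le_mul_of_nonneg_left e0 hc0.le
    have e2 : ((2 : ℝ) ^ k) ^ (δ / 2) * ((2 : ℝ) ^ k) ^ (-δ) = r ^ k := by
      rw [← Real.rpow_add (by positivity), hr, ← Real.rpow_natCast, ← Real.rpow_natCast,
        ← Real.rpow_mul (by norm_num), ← Real.rpow_mul (by norm_num)]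
      congr 1
      ring
    calc (#(S.filter (fun e => Nat.log 2 e = k)) : ℝ) * ((2 : ℝ) ^ k) ^ (-δ) ≤
          (c * ((2 : ℝ) ^ k) ^ (δ / 2)) * ((2 : ℝ) ^ k) ^ (-δ) :=
          mul_le_mul_of_nonneg_right (h4.trans h5) (by positivity)
      _ = c * r ^ k := by rw [mul_assoc, e2]
  refine (sum_le_sum h1).trans ?_
  rw [← mul_sum]
  apply mul_le_mul_of_nonneg_left _ hc0.le
  rw [← tsum_geometric_of_lt_one hr0.le hr1]
  exact (summable_geometric_of_lt_one hr0.le hr1).sum_le_tsum _ (fun i _ => by positivity)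

/-- `log X` is large -/
lemma log_ge (B : ℝ) : ∃ N : ℕ, 1 ≤ N ∧ ∀ X : ℕ, N ≤ X → B ≤ Real.log X := by
  obtain ⟨N, hN⟩ := exists_nat_ge (Real.exp B)
  refine ⟨N + 1, by omega, fun X hX => ?_⟩
  have : (0 : ℝ) < X := by exact_mod_cast (by omega : 0 < X)
  rw [Real.le_log_iff_exp_le this]
  exact hN.trans (by exact_mod_cast (by omega : N ≤ X))

end Pool.Agent.L7h6.BC
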